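import Pool.Agent.J4H92.PL.Table

/-!
# Certificates for products of small graphs
-/

set_option autoImplicit false

namespace Pool.Agent.J4H92.PL

/-- certificate -/
def c44_1 : Fc where
  P := 0x480a66284a4216a8aa922182
  E := [(0, 4), (1, 5), (2, 6), (3, 7), (1, 9), (2, 10), (3, 11), (0, 12), (1, 13), (2, 14),
    (3, 15), (4, 8), (5, 9), (6, 10), (7, 11), (4, 12), (5, 13), (6, 14), (7, 15), (0, 1),
    (4, 5), (8, 9), (12, 13), (0, 2), (8, 10), (12, 14), (0, 3), (4, 7), (8, 11), (12, 15),
    (1, 2), (5, 6), (9, 10), (13, 14), (1, 3), (5, 7), (9, 11), (13, 15), (2, 3), (6, 7),
    (10, 11), (14, 15)]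
  U := [0, 1, 2, 3, 5, 6]
  TP := 0x130660820864185033f0a5110000a00000809010936021150d04040208640506441288e0050486420a60682080000200843057602091400080880000480080880000a010112820910049800048400a53a00127b4021e60817f90c0000088104e0d0404000840204991284041060a35a177c16a063121278b845cc40040001124409298400a53b00127b405280412c0244440c49d86822b02800e0868226e02c8000c0080024306864800008800008568a484096c100040000004480080880000825231a1279100004010000448008088000085004e430ee7c040008800004c0004000000a04400880000100000000000480000880000800000000000400000000000080000080000200000000000100000000000080000000000040000000000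
  TN := 0x50136025914306800a0860844004108404050644128ae0201011282211001093e02315d01051b8a191164226d885042346200a0d64000040108084100040108004050406820a64500051a8102f0124409290402561953a804b045d8400403020101128001101104080183ed170c01a883a1528041ac83420000088105e0253b00127b501244092904002063101278a822a02400004045437f0a111000080158682506ce00c01081000400000042094536b26930000808000021000400000040124401288645000808800011000401000042078313c2118040044000000300400000000040044000000000000800000100040000000000000000000000000000000000000000000000000000000000000000000000000000000000000000000

/-- the table -/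
def C44 : List (ℕ × ℕ × Fc) :=
  [(0x3030d0e, 0x70b0d0e, c44_1)]

theorem ok44 : allC 4 4 6 C44 = true := by decide +kernel

theorem cov44 : covC L4 L4e C44 = true := by decide +kernel

end Pool.Agent.J4H92.PL
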