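import Pool.Agent.J4H92.PL.Table

/-!
# Certificates for products of small graphs
-/

set_option autoImplicit false

namespace Pool.Agent.J4H92.PL

/-- certificate -/
def cf44_1 : Fc where
  P := 0x49aa6628aa595aa881922182
  E := [(0, 4), (1, 5), (2, 6), (3, 7), (0, 8), (1, 9), (2, 10), (3, 11), (0, 12), (1, 13),
    (2, 14), (3, 15), (4, 8), (5, 9), (6, 10), (7, 11), (4, 12), (5, 13), (6, 14), (7, 15),
    (0, 1), (4, 5), (8, 9), (12, 13), (0, 2), (4, 6), (8, 10), (12, 14), (0, 3), (4, 7), (8, 11),
    (12, 15), (1, 2), (5, 6), (9, 10), (13, 14), (1, 3), (5, 7), (9, 11), (13, 15)]
  U := [0, 1, 2, 3, 5, 6, 9, 37]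
  TP := 0x1200b092000b069080290a008d1090000100000108000500060100000400008ca005683a9880a440180a0c0004431100cc0010290100840000000000800000000000400518ae643000054804450002244804c50600600400800600010804450002000804450000240000800608d6a9054f981a2100008026485305fa30a308d6a9454f980e53150000800080a4410a1a109281310a02069080210a000031308a000500010804050012000110000048001b9e0502040100000004120201100000410014ea10050c85a8156f390a0004701000010000000000500000000000130010000000400000000000040000000000120001100000200000000000100000000000020000100000080000000000040000000000020000000000010000000000
  TN := 0x809000290b0010003092000b52000000080014000010000010000810010041011ce817014205183e64309305088464311380a0820a0b0200000001000000000000000080a4401a0a144004100000004305000000091659144580140000100000000001000040095219144580542004eab02505521110008001a4b805cf1c542004aab02511240804c516410518ae75210021308a000d1000309a000b488281310a021400001000000401000000040180a0210a0d0002010000020401000000040886a9156f3a400014ca10000105080465330000000000010810000000000c1000000000000000000000000001000000040100000000000000000000000000000000000000000000000000000000000000000000000000000000000000000000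

/-- the table -/
def Cf44 : List (ℕ × ℕ × Fc) :=
  [(0x3030d0e, 0x3030d0e, cf44_1)]

theorem okf44 : allC 4 4 8 Cf44 = true := by decide +kernel

theorem covf44 : covC L4 L4 Cf44 = true := by decide +kernel

end Pool.Agent.J4H92.PL
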