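import Pool.Agent.J4H92.PL.B64
import Pool.Agent.J4H92.PL.B55
import Pool.Agent.J4H92.PL.B5e4
import Pool.Agent.J4H92.PL.B54
import Pool.Agent.J4H92.PL.B44
import Pool.Agent.J4H92.PL.F44
import Pool.Agent.J4H92.PL.F54
import Pool.Agent.J4H92.CP.Weights

/-!
# Products of two graphs that are rigid in the plane
-/

set_option autoImplicit false

namespace Pool.Agent.J4H92.PL

open SimpleGraph Module Pool.Agent.J4H92.CP Pool.Agent.H283R2.DR Pool.Agent.H789R5

/-! ### Pins -/

theorem mu_more {V : Type*} [Finite V] (G : SimpleGraph V) (j : ℕ) : Mu (3 + j) 0 G := by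
  refine ⟨0, fun _ i => if h : (i : ℕ) < 3 then Pi.single ⟨i, h⟩ 1 else 0, ?_⟩
  have : Sol G (df 0) (fun _ i => if h : (i : ℕ) < 3 then Pi.single ⟨i, h⟩ 1 else 0 :
      V → Fin (3 + j) → Fin 3 → ℝ) = ⊥ := by
    rw [eq_bot_iff]
    rintro m ⟨_, h⟩
    rw [Submodule.mem_bot]
    funext v i
    have h1 := h v ⟨i, by omega⟩
    simp only [Fin.is_lt, dif_pos, Fin.eta, single_dotProduct, one_mul] at h1
    exact h1
  rw [this, finrank_bot]

theorem all3 : ∀ a b : Fin 3, a ≠ b → eM 0x30506 a b = true := by decide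

theorem base3 {U : Type} [Fintype U] {H : SimpleGraph U} (hH : GenRigid 2 H)
    (h3 : Fintype.card U = 3) : Mu 2 0 (H □ (⊥ : SimpleGraph Unit)) := by
  classical
  obtain ⟨M, hM, e, he⟩ := small_three U H hH h3
  have hM' : M = 0x30506 := List.mem_singleton.1 hM
  subst hM'
  have hb : Mu 2 0 (fK.G □ (⊥ : SimpleGraph Unit)) := base_C3p
  refine hb.pull (Equiv.prodCongr e (Equiv.refl Unit)) ?_
  rintro ⟨a, a'⟩ ⟨b, b'⟩ hab
  rcases hab with ⟨h1, h2⟩ | ⟨h1, -⟩
  · exact Or.inl ⟨he a b (all3 a b h1.ne), h2⟩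
  · exact absurd h1 (by simp)

/-- two pins at each vertex of a plane graph -/
theorem pin_plane {U : Type} [Fintype U] (H : SimpleGraph U) (hH : GenRigid 2 H)
    (h3 : 3 ≤ Fintype.card U) : Mu 2 0 H := by
  have h := up (j := 2) (k := 0) (m := 3) (⊥ : SimpleGraph Unit) (by norm_num)
    (mu_more _ 1) (fun U _ H hH h3 => base3 hH h3) _ h3 U H hH rfl
  refine h.pull (Equiv.prodPUnit U).symm ?_
  rintro ⟨a, a'⟩ ⟨b, b'⟩ hab
  rcases hab with ⟨h1, h2⟩ | ⟨h1, -⟩
  · exact h1
  · exact absurd h1 (by simp)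

/-! ### Large factors -/

theorem mu_comm {U W : Type} [Fintype U] [Fintype W] {H : SimpleGraph U} {G : SimpleGraph W}
    {j k : ℕ} (h : Mu j k (G □ H)) : Mu j k (H □ G) := h.of_iso (boxProdComm H G)

theorem rig_64 {U W : Type} [Fintype U] [Fintype W] {H : SimpleGraph U} {G : SimpleGraph W}
    (hH : GenRigid 2 H) (hG : GenRigid 2 G) (hU : 6 ≤ Fintype.card U)
    (hW : Fintype.card W = 4) : Mu 0 6 (H □ G) := by
  refine up (j := 0) (k := 6) (m := 6) G (by norm_num) (pin_plane G hG (by omega)) ?_ _ hU U H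
    hH rfl
  intro U' _ H' hH' hU'
  obtain ⟨M, hM, h1⟩ := small_six U' H' hH' hU'
  obtain ⟨M', hM', h2⟩ := small_four W G hG hW
  exact base_of ok64 cov64 hM hM' h1 h2

theorem rig_55 {U W : Type} [Fintype U] [Fintype W] {H : SimpleGraph U} {G : SimpleGraph W}
    (hH : GenRigid 2 H) (hG : GenRigid 2 G) (hU : 5 ≤ Fintype.card U)
    (hW : Fintype.card W = 5) : Mu 0 6 (H □ G) := by
  refine up (j := 0) (k := 6) (m := 5) G (by norm_num) (pin_plane G hG (by omega)) ?_ _ hU U H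
    hH rfl
  intro U' _ H' hH' hU'
  obtain ⟨M, hM, h1⟩ := small_five U' H' hH' hU'
  obtain ⟨M', hM', h2⟩ := small_five W G hG hW
  exact base_of ok55 cov55 hM hM' h1 h2

theorem rig_46 {U W : Type} [Fintype U] [Fintype W] {H : SimpleGraph U} {G : SimpleGraph W}
    (hH : GenRigid 2 H) (hG : GenRigid 2 G) (hU : 4 ≤ Fintype.card U)
    (hW : 6 ≤ Fintype.card W) : Mu 0 6 (H □ G) := by
  refine up (j := 0) (k := 6) (m := 4) G (by norm_num) (pin_plane G hG (by omega)) ?_ _ hU U H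
    hH rfl
  intro U' _ H' hH' hU'
  exact mu_comm (rig_64 hG hH' hW hU')

theorem rig_big {U W : Type} [Fintype U] [Fintype W] {H : SimpleGraph U} {G : SimpleGraph W}
    (hH : GenRigid 2 H) (hG : GenRigid 2 G) (hU : 4 ≤ Fintype.card U) (hW : 4 ≤ Fintype.card W)
    (h : 10 ≤ Fintype.card U + Fintype.card W) : Mu 0 6 (H □ G) := by
  rcases Nat.lt_or_ge (Fintype.card W) 6 with h1 | h1
  · rcases (show Fintype.card W = 4 ∨ Fintype.card W = 5 by omega) with h2 | h2
    · exact rig_64 hH hG (by omega) h2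
    · exact rig_55 hH hG (by omega) h2
  · exact rig_46 hH hG hU h1

/-! ### Small factors -/

theorem edges_lower {U : Type} [Fintype U] {H : SimpleGraph U} (hH : GenRigid 2 H)
    (hU : 2 ≤ Fintype.card U) : 2 * Fintype.card U ≤ H.edgeSet.ncard + 3 := by
  obtain ⟨p, hp⟩ := exists_mg U 2
  have h1 := (genRigid_iff hp hU H).1 hH
  have h2 := Pool.Agent.N423.DE.mo_lower H p
  norm_num at h1
  omega

theorem small_44 {U W : Type} [Fintype U] [Fintype W] {H : SimpleGraph U} {G : SimpleGraph W}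
    (hH : GenRigid 2 H) (hG : GenRigid 2 G) (hU : Fintype.card U = 4) (hW : Fintype.card W = 4) :
    Mu 0 6 (H □ G) ∨ (H.edgeSet.ncard ≤ 5 ∧ G.edgeSet.ncard ≤ 5 ∧ Mu 0 8 (H □ G)) := by
  obtain ⟨M, hM, h1⟩ := small_four U H hH hU
  obtain ⟨M', hM', h2⟩ := small_four W G hG hW
  rcases Nat.lt_or_ge 5 G.edgeSet.ncard with h3 | h3
  · obtain ⟨M'', hM'', h4⟩ := coded_extra (by norm_num) ext4 num4 hM' h2 h3
    exact Or.inl (base_of ok44 cov44 hM hM'' h1 h4)
  · rcases Nat.lt_or_ge 5 H.edgeSet.ncard with h5 | h5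
    · obtain ⟨M'', hM'', h4⟩ := coded_extra (by norm_num) ext4 num4 hM h1 h5
      exact Or.inl (mu_comm (base_of ok44 cov44 hM' hM'' h2 h4))
    · exact Or.inr ⟨h5, h3, base_of okf44 covf44 hM hM' h1 h2⟩

theorem small_54 {U W : Type} [Fintype U] [Fintype W] {H : SimpleGraph U} {G : SimpleGraph W}
    (hH : GenRigid 2 H) (hG : GenRigid 2 G) (hU : Fintype.card U = 5) (hW : Fintype.card W = 4) :
    Mu 0 6 (H □ G) ∨ (H.edgeSet.ncard ≤ 7 ∧ G.edgeSet.ncard ≤ 5 ∧ Mu 0 7 (H □ G)) := by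
  obtain ⟨M, hM, h1⟩ := small_five U H hH hU
  obtain ⟨M', hM', h2⟩ := small_four W G hG hW
  rcases Nat.lt_or_ge 5 G.edgeSet.ncard with h3 | h3
  · obtain ⟨M'', hM'', h4⟩ := coded_extra (by norm_num) ext4 num4 hM' h2 h3
    exact Or.inl (base_of ok54 cov54 hM hM'' h1 h4)
  · rcases Nat.lt_or_ge 7 H.edgeSet.ncard with h5 | h5
    · obtain ⟨M'', hM'', h4⟩ := coded_extra (by norm_num) ext5 num5 hM h1 h5
      exact Or.inl (base_of ok5e4 cov5e4 hM'' hM' h4 h2)
    · exact Or.inr ⟨h5, h3, base_of okf54 covf54 hM hM' h1 h2⟩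

/-- all cases -/
theorem cases_two {U W : Type} [Fintype U] [Fintype W] {H : SimpleGraph U} {G : SimpleGraph W}
    (hH : GenRigid 2 H) (hG : GenRigid 2 G) (hU : 4 ≤ Fintype.card U) (hW : 4 ≤ Fintype.card W) :
    Mu 0 6 (H □ G) ∨ (Fintype.card U + Fintype.card W ≤ 9 ∧
      H.edgeSet.ncard + 3 = 2 * Fintype.card U ∧ G.edgeSet.ncard + 3 = 2 * Fintype.card W ∧
      ∃ k, 6 < k ∧ k + (H □ G).edgeSet.ncard = 3 * Fintype.card (U × W) ∧ Mu 0 k (H □ G)) := by
  classical
  have hcount := ncard_boxProd H G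
  have l1 := edges_lower hH (by omega)
  have l2 := edges_lower hG (by omega)
  rcases Nat.lt_or_ge 9 (Fintype.card U + Fintype.card W) with h | h
  · exact Or.inl (rig_big hH hG hU hW h)
  · rw [Fintype.card_prod]
    rcases (show (Fintype.card U = 4 ∧ Fintype.card W = 4) ∨
      (Fintype.card U = 5 ∧ Fintype.card W = 4) ∨ (Fintype.card U = 4 ∧ Fintype.card W = 5) by
        omega) with ⟨h1, h2⟩ | ⟨h1, h2⟩ | ⟨h1, h2⟩
    · rcases small_44 hH hG h1 h2 with h3 | ⟨h3, h4, h5⟩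
      · exact Or.inl h3
      · have e1 : H.edgeSet.ncard = 5 := by omega
        have e2 : G.edgeSet.ncard = 5 := by omega
        rw [e1, e2, h1, h2] at hcount
        rw [h1, h2]
        exact Or.inr ⟨by omega, by omega, by omega, 8, by norm_num, by omega, h5⟩
    · rcases small_54 hH hG h1 h2 with h3 | ⟨h3, h4, h5⟩
      · exact Or.inl h3
      · have e1 : H.edgeSet.ncard = 7 := by omega
        have e2 : G.edgeSet.ncard = 5 := by omega
        rw [e1, e2, h1, h2] at hcount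
        rw [h1, h2]
        exact Or.inr ⟨by omega, by omega, by omega, 7, by norm_num, by omega, h5⟩
    · rcases small_54 hG hH h2 h1 with h3 | ⟨h3, h4, h5⟩
      · exact Or.inl (mu_comm h3)
      · have e1 : H.edgeSet.ncard = 5 := by omega
        have e2 : G.edgeSet.ncard = 7 := by omega
        rw [e1, e2, h1, h2] at hcount
        rw [h1, h2]
        exact Or.inr ⟨by omega, by omega, by omega, 7, by norm_num, by omega, mu_comm h5⟩

/-- **Products of two graphs that are rigid in the plane.** -/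
theorem main_two {U W : Type} [Fintype U] [Fintype W] (H : SimpleGraph U) (G : SimpleGraph W)
    (hH : GenRigid 2 H) (hG : GenRigid 2 G) (hU : 4 ≤ Fintype.card U) (hW : 4 ≤ Fintype.card W) :
    genRank 3 (H □ G) = min (H □ G).edgeSet.ncard (3 * Fintype.card (U × W) - 6) ∧
    (GenRigid 3 (H □ G) ↔ 3 * Fintype.card (U × W) ≤ (H □ G).edgeSet.ncard + 6) ∧
    (GenRigid 3 (H □ G) ↔ ¬ (Fintype.card U + Fintype.card W ≤ 9 ∧
      H.edgeSet.ncard + 3 = 2 * Fintype.card U ∧ G.edgeSet.ncard + 3 = 2 * Fintype.card W)) := by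
  classical
  have hcard : 16 ≤ Fintype.card (U × W) := by
    rw [Fintype.card_prod]
    nlinarith
  have k1 := rank_le (H □ G)
  have k2 := rank_le' (H □ G) (by omega)
  have hr : genRank 3 (H □ G) = min (H □ G).edgeSet.ncard (3 * Fintype.card (U × W) - 6) := by
    rcases cases_two hH hG hU hW with h | ⟨-, -, -, k, h1, h2, h3⟩
    · have := mu_rank h
      omega
    · have := mu_rank h3
      omega
  have hi := Pool.Agent.TH409.RG.rigid_iff_of_rank (by omega) hr
  refine ⟨hr, hi, ?_⟩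
  rw [hi]
  constructor
  · rintro h ⟨h1, h2, h3⟩
    have hcount := ncard_boxProd H G
    rw [Fintype.card_prod] at h
    rcases (show (Fintype.card U = 4 ∧ Fintype.card W = 4) ∨
      (Fintype.card U = 5 ∧ Fintype.card W = 4) ∨ (Fintype.card U = 4 ∧ Fintype.card W = 5) by
        omega) with ⟨e1, e2⟩ | ⟨e1, e2⟩ | ⟨e1, e2⟩
    all_goals
      rw [e1, e2] at h hcount
      rw [e1] at h2
      rw [e2] at h3
      omega
  · intro h
    rcases cases_two hH hG hU hW with h1 | h1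
    · have := mu_rank h1
      omega
    · exact absurd ⟨h1.1, h1.2.1, h1.2.2.1⟩ h

end Pool.Agent.J4H92.PL
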