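import Pool.Agent.J4H92.CP.Cert
import Pool.Agent.J4H92.CT.F3

/-!
# Certificates for frameworks: placements over the field with three elements
-/

set_option autoImplicit false

namespace Pool.Agent.J4H92.PL

open Module SimpleGraph Pool.Agent.J4H92.CP Pool.Agent.J4H92.CT

/-- a coordinate of the placement -/
def crd (P s : ℕ) : ℕ := (P >>> (2 * s)) &&& 3

theorem blt_lt {a b : ℕ} (h : Nat.blt a b = true) : a < b := by
  rwa [Nat.blt_eq] at h

/-- the row of an edge -/
def rowE (P u v : ℕ) : List En :=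
  [⟨3 * u, 0, 0, (crd P (3 * u) : ℤ) - crd P (3 * v), crd P (3 * u) + 2 * crd P (3 * v)⟩,
   ⟨3 * u + 1, 0, 0, (crd P (3 * u + 1) : ℤ) - crd P (3 * v + 1),
    crd P (3 * u + 1) + 2 * crd P (3 * v + 1)⟩,
   ⟨3 * u + 2, 0, 0, (crd P (3 * u + 2) : ℤ) - crd P (3 * v + 2),
    crd P (3 * u + 2) + 2 * crd P (3 * v + 2)⟩,
   ⟨3 * v, 0, 0, (crd P (3 * v) : ℤ) - crd P (3 * u), crd P (3 * v) + 2 * crd P (3 * u)⟩,
   ⟨3 * v + 1, 0, 0, (crd P (3 * v + 1) : ℤ) - crd P (3 * u + 1),
    crd P (3 * v + 1) + 2 * crd P (3 * u + 1)⟩,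
   ⟨3 * v + 2, 0, 0, (crd P (3 * v + 2) : ℤ) - crd P (3 * u + 2),
    crd P (3 * v + 2) + 2 * crd P (3 * u + 2)⟩]

/-- a framework certificate: placement, edges, fixed coordinates, inverse modulo three -/
structure Fc where
  P : ℕ
  E : List (ℕ × ℕ)
  U : List ℕ
  TP : ℕ
  TN : ℕ

/-- the rows -/
def Fc.rws (c : Fc) : List (List En) :=
  c.E.map (fun e => rowE c.P e.1 e.2) ++ c.U.map (fun s => [⟨s, 0, 0, 1, 1⟩])

theorem rws_mem {c : Fc} {L : List En} (h : L ∈ c.rws) :
    (∃ p ∈ c.E, rowE c.P p.1 p.2 = L) ∨ ∃ s ∈ c.U, [⟨s, 0, 0, 1, 1⟩] = L := by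
  rw [Fc.rws, List.mem_append, List.mem_map, List.mem_map] at h
  exact h

/-- the inverse -/
def Fc.T (c : Fc) (N k _a _b : ℕ) : ℕ × ℕ :=
  ((c.TP >>> (3 * N * k)) &&& (2 ^ (3 * N) - 1), (c.TN >>> (3 * N * k)) &&& (2 ^ (3 * N) - 1))

/-- checking the rows -/
def chk (T : ℕ → ℕ → ℕ → ℕ × ℕ) : ℕ → List (List En) → Bool
  | _, [] => true
  | r, l :: L => (Nat.beq (acc T l).1 (2 ^ r) && Nat.beq (acc T l).2 0) && chk T (r + 1) L

theorem chk_spec {T : ℕ → ℕ → ℕ → ℕ × ℕ} : ∀ (L : List (List En)) (r : ℕ), chk T r L = true →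
    ∀ i < L.length, acc T (L.getD i []) = (2 ^ (r + i), 0)
  | [], _, _, i, hi => absurd hi (Nat.not_lt_zero i)
  | l :: L, r, h, i, hi => by
    rw [chk, Bool.and_eq_true, Bool.and_eq_true] at h
    obtain ⟨⟨h1, h2⟩, h3⟩ := h
    rcases i with _ | i
    · rw [List.getD_cons_zero, Nat.add_zero]
      exact Prod.ext (Nat.eq_of_beq_eq_true h1) (Nat.eq_of_beq_eq_true h2)
    · rw [List.getD_cons_succ, chk_spec L (r + 1) h3 i (by rw [List.length_cons] at hi; omega)]
      rw [Nat.add_right_comm, Nat.add_assoc]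

/-- the check -/
def Fc.check (c : Fc) (a : ℕ → ℕ → Bool) (N : ℕ) : Bool :=
  (Nat.beq (c.E.length + c.U.length) (3 * N) &&
    c.E.all (fun e => Nat.blt e.1 N && (Nat.blt e.2 N && a e.1 e.2))) &&
  (c.U.all (fun s => Nat.blt s (3 * N)) &&
    (ball (fun s => Nat.beq ((c.T N s 0 0).1 &&& (c.T N s 0 0).2) 0) (3 * N) &&
      chk (c.T N) 0 c.rws))

theorem nm_of_land {x : ℕ × ℕ} (h : x.1 &&& x.2 = 0) : Nm x := by
  rintro j ⟨h1, h2⟩
  have h3 : (x.1 &&& x.2).testBit j = true := by rw [Nat.testBit_land, h1, h2]; rfl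
  rw [h, Nat.zero_testBit] at h3
  exact absurd h3 (by decide)

theorem z_n (x y : ℕ) : (((x : ℤ) - (y : ℤ) : ℤ) : ZMod 3) = ((x + 2 * y : ℕ) : ZMod 3) := by
  push_cast
  have : (2 : ZMod 3) = -1 := by decide
  rw [this]
  ring

theorem rowE_z (P u v : ℕ) : ∀ e ∈ rowE P u v, ((e.z : ℤ) : ZMod 3) = (e.n : ZMod 3) := by
  intro e he
  simp only [rowE, List.mem_cons, List.not_mem_nil, or_false] at he
  rcases he with rfl | rfl | rfl | rfl | rfl | rfl <;> exact z_n _ _

theorem rowE_pos (P u v : ℕ) : ∀ e ∈ rowE P u v, e.a = 0 ∧ e.b = 0 ∧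
    (e.k < 3 * (u + 1) ∨ e.k < 3 * (v + 1)) := by
  intro e he
  simp only [rowE, List.mem_cons, List.not_mem_nil, or_false] at he
  rcases he with rfl | rfl | rfl | rfl | rfl | rfl <;> refine ⟨rfl, rfl, ?_⟩ <;>
    simp only <;> omega

/-- the placement -/
def plc (P : ℕ) {N : ℕ} (v : Fin N) (i : Fin 3) : ℝ := (crd P (3 * v + i) : ℝ)

theorem cert_sound3 {N : ℕ} {adj : ℕ → ℕ → Bool} {G : SimpleGraph (Fin N)}
    (hadj : ∀ u v : Fin N, adj u v = true → G.Adj u v) (c : Fc) (h : c.check adj N = true) :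
    Mu 0 c.U.length G := by
  classical
  rw [Fc.check, Bool.and_eq_true, Bool.and_eq_true, Bool.and_eq_true, Bool.and_eq_true] at h
  obtain ⟨⟨h1, h2⟩, h3, h4, h5⟩ := h
  have h1 := Nat.eq_of_beq_eq_true h1
  rw [List.all_eq_true] at h2 h3
  have h4 := ball_spec h4
  have hlen : c.rws.length = 3 * N := by
    rw [Fc.rws, List.length_append, List.length_map, List.length_map, h1]
  have h6 := chk_spec c.rws 0 h5
  rw [hlen] at h6
  refine ⟨plc c.P, fun _ i => i.elim0, ?_⟩
  set S := Sol G (df (plc c.P)) (fun _ i => i.elim0 : Fin N → Fin 0 → Fin 3 → ℝ) with hS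
  have hU : ∀ i : Fin c.U.length, c.U[i] < 3 * N := by
    intro i
    have := h3 c.U[i] (List.getElem_mem _)
    exact blt_lt this
  let g : (Fin N → Fin 3 → ℝ) →ₗ[ℝ] (Fin c.U.length → ℝ) :=
    { toFun := fun m i => m ⟨c.U[i] / 3, by have := hU i; omega⟩ ⟨c.U[i] % 3, by omega⟩
      map_add' := fun _ _ => rfl
      map_smul' := fun _ _ => rfl }
  have hinj : Function.Injective (g.domRestrict S) := by
    rw [injective_iff_map_eq_zero]
    rintro ⟨m, hm⟩ h0
    refine Subtype.ext ?_
    show m = 0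
    have hg : g m = 0 := h0
    let y : ℕ → ℕ → ℕ → ℝ := fun k _ _ =>
      if hk : k < 3 * N then m ⟨k / 3, by omega⟩ ⟨k % 3, by omega⟩ else 0
    have hyk : ∀ (v : ℕ) (hv : v < N) (i : ℕ) (hi : i < 3) (a b : ℕ),
        y (3 * v + i) a b = m ⟨v, hv⟩ ⟨i, hi⟩ := by
      intro v hv i hi a b
      have hk : 3 * v + i < 3 * N := by omega
      have e1 : (3 * v + i) / 3 = v := by omega
      have e2 : (3 * v + i) % 3 = i := by omega
      simp only [y, hk, dif_pos, e1, e2]
    have key := regular3 (fun r => c.rws.getD r []) (3 * N)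
      ((Finset.range (3 * N)).image fun s => (⟨s, (0, 0)⟩ : (_ : ℕ) × (ℕ × ℕ)))
      (by
        rw [Finset.card_image_of_injective, Finset.card_range]
        intro a b hab
        exact (Sigma.mk.inj_iff.1 hab).1)
      (c.T N) ?_ ?_ ?_ ?_ y ?_
    · funext v i
      have h7 := key ⟨3 * v + i, (0, 0)⟩ (Finset.mem_image.2 ⟨3 * v + i, Finset.mem_range.2 (by
        have := v.2; have := i.2; omega), rfl⟩)
      have h8 := hyk v v.2 i i.2 0 0
      simp only at h7
      rw [h8] at h7
      exact h7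
    · intro r hr e he
      have hmem : c.rws.getD r [] ∈ c.rws := by
        rw [List.getD_eq_getElem _ _ (by omega)]
        exact List.getElem_mem _
      have hmem := rws_mem hmem
      rw [Finset.mem_image]
      rcases hmem with ⟨p, hp, hpe⟩ | ⟨s, hs, hse⟩
      · have h7 := h2 p hp
        rw [Bool.and_eq_true, Bool.and_eq_true] at h7
        have h8 := blt_lt h7.1
        have h9 := blt_lt h7.2.1
        rw [← hpe] at he
        obtain ⟨e1, e2, e3⟩ := rowE_pos _ _ _ e he
        exact ⟨e.k, Finset.mem_range.2 (by omega), by rw [En.pos, e1, e2]⟩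
      · rw [← hse, List.mem_singleton] at he
        subst he
        exact ⟨s, Finset.mem_range.2 (blt_lt (h3 s hs)), rfl⟩
    · intro r hr e he
      have hmem : c.rws.getD r [] ∈ c.rws := by
        rw [List.getD_eq_getElem _ _ (by omega)]
        exact List.getElem_mem _
      have hmem := rws_mem hmem
      rcases hmem with ⟨p, hp, hpe⟩ | ⟨s, hs, hse⟩
      · rw [← hpe] at he
        exact rowE_z _ _ _ e he
      · rw [← hse, List.mem_singleton] at he
        subst he
        simp
    · intro r hr e he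
      have hmem : c.rws.getD r [] ∈ c.rws := by
        rw [List.getD_eq_getElem _ _ (by omega)]
        exact List.getElem_mem _
      have hmem := rws_mem hmem
      have hek : e.k < 3 * N := by
        rcases hmem with ⟨p, hp, hpe⟩ | ⟨s, hs, hse⟩
        · have h7 := h2 p hp
          rw [Bool.and_eq_true, Bool.and_eq_true] at h7
          have h8 := blt_lt h7.1
          have h9 := blt_lt h7.2.1
          rw [← hpe] at he
          obtain ⟨e1, e2, e3⟩ := rowE_pos _ _ _ e he
          omega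
        · rw [← hse, List.mem_singleton] at he
          subst he
          exact blt_lt (h3 s hs)
      exact nm_of_land (Nat.eq_of_beq_eq_true (h4 e.k hek))
    · intro r hr
      rw [h6 r hr, Nat.zero_add]
    · intro r hr
      by_cases hr' : r < c.E.length
      · have e1 : c.rws.getD r [] = rowE c.P (c.E[r]).1 (c.E[r]).2 := by
          rw [List.getD_eq_getElem _ _ (by omega)]
          simp only [Fc.rws]
          rw [List.getElem_append_left (by rw [List.length_map]; exact hr'), List.getElem_map]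
        have h7 := h2 c.E[r] (List.getElem_mem _)
        rw [Bool.and_eq_true, Bool.and_eq_true] at h7
        have h8 := blt_lt h7.1
        have h9 := blt_lt h7.2.1
        have h10 := hm.1 _ _ (hadj ⟨(c.E[r]).1, h8⟩ ⟨(c.E[r]).2, h9⟩ h7.2.2)
        simp only [e1]
        have f0 := hyk (c.E[r]).1 h8 0 (by norm_num) 0 0
        have f1 := hyk (c.E[r]).1 h8 1 (by norm_num) 0 0
        have f2 := hyk (c.E[r]).1 h8 2 (by norm_num) 0 0
        have g0 := hyk (c.E[r]).2 h9 0 (by norm_num) 0 0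
        have g1 := hyk (c.E[r]).2 h9 1 (by norm_num) 0 0
        have g2 := hyk (c.E[r]).2 h9 2 (by norm_num) 0 0
        rw [Nat.add_zero] at f0 g0
        simp only [rowE, List.map_cons, List.map_nil, List.sum_cons, List.sum_nil, f0, f1, f2,
          g0, g1, g2]
        have h11 : ∀ x : Fin 3 → ℝ, ∀ z : Fin 3 → ℝ, x ⬝ᵥ z = x 0 * z 0 + x 1 * z 1 + x 2 * z 2 := by
          intro x z
          rw [dotProduct, Fin.sum_univ_three]
        rw [h11] at h10
        simp only [df, plc, Pi.sub_apply] at h10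
        have e2 : ((0 : Fin 3) : ℕ) = 0 := rfl
        have e3 : ((1 : Fin 3) : ℕ) = 1 := rfl
        have e4 : ((2 : Fin 3) : ℕ) = 2 := rfl
        rw [e2, e3, e4, Nat.add_zero, Nat.add_zero] at h10
        have e5 : (⟨0, by norm_num⟩ : Fin 3) = 0 := rfl
        have e6 : (⟨1, by norm_num⟩ : Fin 3) = 1 := rfl
        have e7 : (⟨2, by norm_num⟩ : Fin 3) = 2 := rfl
        rw [e5, e6, e7]
        push_cast
        linarith
      · have e1 : c.rws.getD r [] = [⟨c.U[r - c.E.length]'(by omega), 0, 0, 1, 1⟩] := by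
          rw [List.getD_eq_getElem _ _ (by omega)]
          simp only [Fc.rws]
          rw [List.getElem_append_right (by rw [List.length_map]; omega), List.getElem_map]
          simp only [List.length_map]
        simp only [e1, List.map_cons, List.map_nil, List.sum_cons, List.sum_nil]
        have h7 : r - c.E.length < c.U.length := by omega
        have h8 := congrFun hg ⟨r - c.E.length, h7⟩
        have h9 := hU ⟨r - c.E.length, h7⟩
        have h10 : y (c.U[r - c.E.length]) 0 0 = 0 := by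
          have h11 : c.U[r - c.E.length] < 3 * N := h9
          simp only [y]
          rw [dif_pos h11]
          exact h8
        rw [h10]
        simp
  have := LinearMap.finrank_le_finrank_of_injective hinj
  rwa [Module.finrank_fintype_fun_eq_card, Fintype.card_fin] at this

theorem coded3 {V : Type*} [Finite V] {G : SimpleGraph V} {N : ℕ} {a : ℕ → ℕ → Bool}
    (hG : Coded G N a) (c : Fc) (h : c.check a N = true) : Mu 0 c.U.length G := by
  obtain ⟨e, he⟩ := hG
  have hadj : ∀ u v : Fin N, a u v = true → (gA N a).Adj u v := by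
    intro u v huv
    refine ⟨fun hc => ?_, Or.inl huv⟩
    subst hc
    exact (he u u huv).ne rfl
  refine (cert_sound3 hadj c h).pull e ?_
  rintro u v ⟨_, h | h⟩
  · exact he u v h
  · exact (he v u h).symm

end Pool.Agent.J4H92.PL
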