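import Pool.Agent.J4H92.CP.Iso

/-!
# Extensions of one factor by a vertex
-/

set_option autoImplicit false

namespace Pool.Agent.J4H92.PL

open Pool.Agent.H283R2.DR.TA Module SimpleGraph Pool.Agent.J4H92.CP

variable {U W : Type*}

/-- restricting to the old vertices -/
theorem glue [Finite U] [Finite W] {H : SimpleGraph (Option U)} {H' : SimpleGraph U}
    {Y : SimpleGraph W} {j k : ℕ} (P : Option U × W → Fin 3 → ℝ)
    (δ : Option U × W → Fin j → Fin 3 → ℝ)
    (h1 : finrank ℝ (Sol (H' □ Y) (df fun v => P (some v.1, v.2))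
      (fun v => δ (some v.1, v.2))) ≤ k)
    (h2 : ∀ m ∈ Sol (H □ Y) (df P) δ, (fun v : U × W => m (some v.1, v.2)) ∈
      Sol (H' □ Y) (df fun v => P (some v.1, v.2)) (fun v => δ (some v.1, v.2)))
    (h3 : ∀ m ∈ Sol (H □ Y) (df P) δ, (∀ u w, m (some u, w) = 0) → ∀ w, m (none, w) = 0) :
    Mu j k (H □ Y) := by
  refine ⟨P, δ, le_trans ?_ h1⟩
  let R : (Option U × W → Fin 3 → ℝ) →ₗ[ℝ] (U × W → Fin 3 → ℝ) :=
    LinearMap.funLeft ℝ (Fin 3 → ℝ) (fun v : U × W => (some v.1, v.2))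
  have hinj : Function.Injective ((R.domRestrict (Sol (H □ Y) (df P) δ)).codRestrict
      (Sol (H' □ Y) (df fun v => P (some v.1, v.2)) (fun v => δ (some v.1, v.2)))
      (fun m => h2 m m.2)) := by
    rw [injective_iff_map_eq_zero]
    rintro ⟨m, hm⟩ h
    rw [Subtype.ext_iff] at h
    have h4 : R m = 0 := h
    rw [Subtype.ext_iff]
    show m = 0
    have h5 : ∀ u w, m (some u, w) = 0 := fun u w => congrFun h4 (u, w)
    funext v
    obtain ⟨u, w⟩ := v
    rcases u with _ | u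
    · exact h3 m hm h5 w
    · exact h5 u w
  exact LinearMap.finrank_le_finrank_of_injective hinj

/-- the slice of the new vertex with two further pins -/
noncomputable def LY {E : Type*} [AddCommGroup E] [Module ℝ E] {j : ℕ}
    (q a b : E →ₗ[ℝ] (W → Fin 3 → ℝ)) (δ : E →ₗ[ℝ] (W → Fin j → Fin 3 → ℝ)) :
    E →ₗ[ℝ] ((W → W → Fin 3 → ℝ) × (W → Fin (j + 2) → Fin 3 → ℝ)) where
  toFun e := (df (q e), fun w => Fin.cons (a e w) (Fin.cons (b e w) (δ e w)))
  map_add' e e' := by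
    refine Prod.ext ?_ ?_
    · funext u v
      simp only [df, map_add, Prod.fst_add, Pi.add_apply]
      abel
    · funext w i
      refine Fin.cases ?_ (fun i => ?_) i
      · simp
      · refine Fin.cases ?_ (fun i => ?_) i
        · simp
        · simp
  map_smul' c e := by
    refine Prod.ext ?_ ?_
    · funext u v
      simp only [df, map_smul, Prod.smul_fst, Pi.smul_apply, RingHom.id_apply, smul_sub]
    · funext w i
      refine Fin.cases ?_ (fun i => ?_) i
      · simp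
      · refine Fin.cases ?_ (fun i => ?_) i
        · simp
        · simp

/-- the old system -/
noncomputable def LO {E : Type*} [AddCommGroup E] [Module ℝ E] {V : Type*} {j : ℕ}
    (p : E →ₗ[ℝ] (V → Fin 3 → ℝ)) (δ : E →ₗ[ℝ] (V → Fin j → Fin 3 → ℝ)) :
    E →ₗ[ℝ] ((V → V → Fin 3 → ℝ) × (V → Fin j → Fin 3 → ℝ)) where
  toFun e := (df (p e), δ e)
  map_add' e e' := by
    refine Prod.ext ?_ ?_
    · funext u v
      simp only [df, map_add, Prod.fst_add, Pi.add_apply]
      abel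
    · simp only [map_add, Prod.snd_add]
  map_smul' c e := by
    refine Prod.ext ?_ ?_
    · funext u v
      simp only [df, map_smul, Prod.smul_fst, Pi.smul_apply, RingHom.id_apply, smul_sub]
    · simp only [map_smul, Prod.smul_snd, RingHom.id_apply]

theorem cons_eta {j : ℕ} (d : Fin (j + 2) → Fin 3 → ℝ) :
    (Fin.cons (d 0) (Fin.cons (d 1) (fun i => d i.succ.succ) : Fin (j + 1) → Fin 3 → ℝ) :
      Fin (j + 2) → Fin 3 → ℝ) = d := by
  funext i
  refine Fin.cases ?_ (fun i => ?_) i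
  · rfl
  · refine Fin.cases ?_ (fun i => ?_) i
    · rfl
    · rfl

/-- a common choice of the old placement, of the new slice and of the pins -/
theorem exists_good [Finite U] [Finite W] {H' : SimpleGraph U} {Y : SimpleGraph W} {j k : ℕ}
    {E : Type*} [AddCommGroup E] [Module ℝ E]
    (p : E →ₗ[ℝ] (U × W → Fin 3 → ℝ)) (δ : E →ₗ[ℝ] (U × W → Fin j → Fin 3 → ℝ))
    (q a b : E →ₗ[ℝ] (W → Fin 3 → ℝ)) (η : E →ₗ[ℝ] (W → Fin j → Fin 3 → ℝ))
    (h1 : ∃ e, finrank ℝ (Sol (H' □ Y) (df (p e)) (δ e)) ≤ k)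
    (h2 : ∃ e, finrank ℝ (Sol Y (df (q e))
      (fun w => Fin.cons (a e w) (Fin.cons (b e w) (η e w)) : W → Fin (j + 2) → Fin 3 → ℝ)) ≤ 0) :
    ∃ e, finrank ℝ (Sol (H' □ Y) (df (p e)) (δ e)) ≤ k ∧ finrank ℝ (Sol Y (df (q e))
      (fun w => Fin.cons (a e w) (Fin.cons (b e w) (η e w)) : W → Fin (j + 2) → Fin 3 → ℝ)) ≤ 0 := by
  obtain ⟨e, he⟩ := good_family (E := E) (ι := Bool)
    (fun o e => match o with
      | true => finrank ℝ (Sol (H' □ Y) (LO p δ e).1 (LO p δ e).2) ≤ k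
      | false => finrank ℝ (Sol Y (LY q a b η e).1 (LY q a b η e).2) ≤ 0)
    (by
      rintro (_ | _)
      · exact good_sol _ _ _
      · exact good_sol _ _ _)
    (by
      rintro (_ | _)
      · exact h2
      · exact h1)
  exact ⟨e, he true, he false⟩

/-- the new slice does not move if the old vertices do not move -/
theorem slice_zero [Finite W] {H : SimpleGraph (Option U)} {Y : SimpleGraph W} {j : ℕ} {x y : U}
    (hx : H.Adj none (some x)) (hy : H.Adj none (some y))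
    {P : Option U × W → Fin 3 → ℝ} {δ : Option U × W → Fin j → Fin 3 → ℝ}
    (h : finrank ℝ (Sol Y (df fun w => P (none, w))
      (fun w => Fin.cons (P (none, w) - P (some x, w)) (Fin.cons (P (none, w) - P (some y, w))
        (δ (none, w))) : W → Fin (j + 2) → Fin 3 → ℝ)) ≤ 0)
    (m : Option U × W → Fin 3 → ℝ) (hm : m ∈ Sol (H □ Y) (df P) δ)
    (h0 : ∀ u w, m (some u, w) = 0) : ∀ w, m (none, w) = 0 := by
  intro w
  have h1 : (fun w => m (none, w)) ∈ Sol Y (df fun w => P (none, w))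
      (fun w => Fin.cons (P (none, w) - P (some x, w)) (Fin.cons (P (none, w) - P (some y, w))
        (δ (none, w))) : W → Fin (j + 2) → Fin 3 → ℝ) := by
    rw [mem_sol]
    refine ⟨fun a b hab => hm.1 (none, a) (none, b) (Or.inr ⟨hab, rfl⟩), fun a i => ?_⟩
    refine Fin.cases ?_ (fun i => ?_) i
    · have h3 := hm.1 (none, a) (some x, a) (Or.inl ⟨hx, rfl⟩)
      rw [h0, sub_zero] at h3
      exact h3
    · refine Fin.cases ?_ (fun i => ?_) i
      · have h3 := hm.1 (none, a) (some y, a) (Or.inl ⟨hy, rfl⟩)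
        rw [h0, sub_zero] at h3
        exact h3
      · exact hm.2 (none, a) i
  exact congrFun (eq_zero_of_finrank_le h h1) w

/-- combine placements -/
def cmb {X : Type*} (f : U × W → X) (g : W → X) : Option U × W → X
  | (none, w) => g w
  | (some u, w) => f (u, w)

theorem choose_zero [Finite U] [Finite W] {H' : SimpleGraph U} {Y : SimpleGraph W} {j k : ℕ}
    {x y : U} (hxy : x ≠ y) (hY : Mu (j + 2) 0 Y) (h : Mu j k (H' □ Y)) :
    ∃ (P : U × W → Fin 3 → ℝ) (d : U × W → Fin j → Fin 3 → ℝ) (Q : W → Fin 3 → ℝ)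
      (ε : W → Fin j → Fin 3 → ℝ), finrank ℝ (Sol (H' □ Y) (df P) d) ≤ k ∧
      finrank ℝ (Sol Y (df Q) (fun w => Fin.cons (Q w - P (x, w)) (Fin.cons (Q w - P (y, w))
        (ε w)) : W → Fin (j + 2) → Fin 3 → ℝ)) ≤ 0 := by
  classical
  let E : Type _ := ((U × W → Fin 3 → ℝ) × (U × W → Fin j → Fin 3 → ℝ)) ×
    ((W → Fin 3 → ℝ) × (W → Fin j → Fin 3 → ℝ))
  let p : E →ₗ[ℝ] (U × W → Fin 3 → ℝ) := (LinearMap.fst ℝ _ _).comp (LinearMap.fst ℝ _ _)
  let δ : E →ₗ[ℝ] (U × W → Fin j → Fin 3 → ℝ) := (LinearMap.snd ℝ _ _).comp (LinearMap.fst ℝ _ _)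
  let q : E →ₗ[ℝ] (W → Fin 3 → ℝ) := (LinearMap.fst ℝ _ _).comp (LinearMap.snd ℝ _ _)
  let η : E →ₗ[ℝ] (W → Fin j → Fin 3 → ℝ) := (LinearMap.snd ℝ _ _).comp (LinearMap.snd ℝ _ _)
  let sl : U → E →ₗ[ℝ] (W → Fin 3 → ℝ) := fun u =>
    (LinearMap.funLeft ℝ (Fin 3 → ℝ) (fun w => (u, w))).comp p
  obtain ⟨e, he1, he2⟩ := exists_good (H' := H') (Y := Y) (k := k) p δ q (q - sl x) (q - sl y) η
    (by
      obtain ⟨P, d, h⟩ := h
      exact ⟨((P, d), (0, 0)), h⟩)
    (by
      obtain ⟨P, d, h⟩ := hY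
      set e0 : E := ((fun v => if v.1 = x then P v.2 - d v.2 0 else P v.2 - d v.2 1, 0),
        (P, fun w i => d w i.succ.succ)) with he0
      have e3 : q e0 = P := rfl
      refine ⟨e0, le_trans (le_of_eq ?_) h⟩
      have e4 : ∀ w, (q - sl x) e0 w = d w 0 := by
        intro w
        show P w - (if x = x then P w - d w 0 else P w - d w 1) = d w 0
        rw [if_pos rfl, sub_sub_cancel]
      have e5 : ∀ w, (q - sl y) e0 w = d w 1 := by
        intro w
        show P w - (if y = x then P w - d w 0 else P w - d w 1) = d w 1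
        rw [if_neg hxy.symm, sub_sub_cancel]
      have e6 : (fun w => Fin.cons ((q - sl x) e0 w) (Fin.cons ((q - sl y) e0 w) (η e0 w)) :
          W → Fin (j + 2) → Fin 3 → ℝ) = d := by
        funext w
        rw [e4, e5]
        exact cons_eta (d w)
      rw [e6, e3])
  exact ⟨p e, δ e, q e, η e, he1, he2⟩

theorem choose_one [Finite U] [Finite W] {H' : SimpleGraph U} {Y : SimpleGraph W} {j k : ℕ}
    {x y z : U} (hxy : x ≠ y) (hxz : x ≠ z) (hyz : y ≠ z) (hY : Mu (j + 2) 0 Y)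
    (h : Mu j k (H' □ Y)) :
    ∃ (P : U × W → Fin 3 → ℝ) (d : U × W → Fin j → Fin 3 → ℝ) (Q : W → Fin 3 → ℝ)
      (ε : W → Fin j → Fin 3 → ℝ), (∀ w, Q w = (1 / 2 : ℝ) • (P (x, w) + P (y, w))) ∧
      finrank ℝ (Sol (H' □ Y) (df P) d) ≤ k ∧
      finrank ℝ (Sol Y (df Q) (fun w => Fin.cons (Q w - P (x, w)) (Fin.cons (Q w - P (z, w))
        (ε w)) : W → Fin (j + 2) → Fin 3 → ℝ)) ≤ 0 := by
  classical
  let E : Type _ := ((U × W → Fin 3 → ℝ) × (U × W → Fin j → Fin 3 → ℝ)) ×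
    (W → Fin j → Fin 3 → ℝ)
  let p : E →ₗ[ℝ] (U × W → Fin 3 → ℝ) := (LinearMap.fst ℝ _ _).comp (LinearMap.fst ℝ _ _)
  let δ : E →ₗ[ℝ] (U × W → Fin j → Fin 3 → ℝ) := (LinearMap.snd ℝ _ _).comp (LinearMap.fst ℝ _ _)
  let η : E →ₗ[ℝ] (W → Fin j → Fin 3 → ℝ) := LinearMap.snd ℝ _ _
  let sl : U → E →ₗ[ℝ] (W → Fin 3 → ℝ) := fun u =>
    (LinearMap.funLeft ℝ (Fin 3 → ℝ) (fun w => (u, w))).comp p
  let q : E →ₗ[ℝ] (W → Fin 3 → ℝ) := (1 / 2 : ℝ) • (sl x + sl y)
  obtain ⟨e, he1, he2⟩ := exists_good (H' := H') (Y := Y) (k := k) p δ q (q - sl x) (q - sl z) η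
    (by
      obtain ⟨P, d, h⟩ := h
      exact ⟨((P, d), 0), h⟩)
    (by
      obtain ⟨P, d, h⟩ := hY
      set e0 : E := ((fun v => if v.1 = x then P v.2 - d v.2 0 else if v.1 = y then
        P v.2 + d v.2 0 else P v.2 - d v.2 1, 0), fun w i => d w i.succ.succ) with he0
      have e1 : ∀ w, q e0 w = P w := by
        intro w
        show (1 / 2 : ℝ) • ((if x = x then P w - d w 0 else if x = y then
          P w + d w 0 else P w - d w 1) + (if y = x then P w - d w 0 else if y = y then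
          P w + d w 0 else P w - d w 1)) = P w
        rw [if_pos rfl, if_neg hxy.symm, if_pos rfl]
        funext i
        simp only [Pi.smul_apply, Pi.add_apply, Pi.sub_apply, smul_eq_mul]
        ring
      refine ⟨e0, le_trans (le_of_eq ?_) h⟩
      have e3 : q e0 = P := funext e1
      have e4 : ∀ w, (q - sl x) e0 w = d w 0 := by
        intro w
        show q e0 w - (if x = x then P w - d w 0 else if x = y then
          P w + d w 0 else P w - d w 1) = d w 0
        rw [e1, if_pos rfl, sub_sub_cancel]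
      have e5 : ∀ w, (q - sl z) e0 w = d w 1 := by
        intro w
        show q e0 w - (if z = x then P w - d w 0 else if z = y then
          P w + d w 0 else P w - d w 1) = d w 1
        rw [e1, if_neg hxz.symm, if_neg hyz.symm, sub_sub_cancel]
      have e6 : (fun w => Fin.cons ((q - sl x) e0 w) (Fin.cons ((q - sl z) e0 w) (η e0 w)) :
          W → Fin (j + 2) → Fin 3 → ℝ) = d := by
        funext w
        rw [e4, e5]
        exact cons_eta (d w)
      rw [e6, e3])
  exact ⟨p e, δ e, q e, η e, fun _ => rfl, he1, he2⟩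

/-- **A new vertex with two neighbours.** -/
theorem ext_zero [Finite U] [Finite W] {H : SimpleGraph (Option U)} {H' : SimpleGraph U}
    {Y : SimpleGraph W} {j k : ℕ} {x y : U} (hxy : x ≠ y) (hx : H.Adj none (some x))
    (hy : H.Adj none (some y)) (hH : ∀ a b, H'.Adj a b → H.Adj (some a) (some b))
    (hY : Mu (j + 2) 0 Y) (h : Mu j k (H' □ Y)) : Mu j k (H □ Y) := by
  obtain ⟨P, d, Q, ε, he1, he2⟩ := choose_zero hxy hY h
  refine glue (cmb P Q) (cmb d ε) he1 ?_ ?_
  · intro m hm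
    rw [mem_sol]
    refine ⟨fun a b hab => ?_, fun a i => hm.2 (some a.1, a.2) i⟩
    refine hm.1 (some a.1, a.2) (some b.1, b.2) ?_
    rcases hab with ⟨h1, h2⟩ | ⟨h1, h2⟩
    · exact Or.inl ⟨hH _ _ h1, h2⟩
    · exact Or.inr ⟨h1, congrArg some h2⟩
  · intro m hm h0
    exact slice_zero (P := cmb P Q) (δ := cmb d ε) hx hy he2 m hm h0

/-- **A new vertex on an edge, joined to a third vertex.** -/
theorem ext_one [Finite U] [Finite W] {H : SimpleGraph (Option U)} {H' : SimpleGraph U}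
    {Y : SimpleGraph W} {j k : ℕ} {x y z : U} (hxy : x ≠ y) (hxz : x ≠ z) (hyz : y ≠ z)
    (hx : H.Adj none (some x)) (hy : H.Adj none (some y)) (hz : H.Adj none (some z))
    (hH : ∀ a b, H'.Adj a b → s(a, b) ≠ s(x, y) → H.Adj (some a) (some b))
    (hY : Mu (j + 2) 0 Y) (h : Mu j k (H' □ Y)) : Mu j k (H □ Y) := by
  obtain ⟨P, d, Q, ε, hQ, he1, he2⟩ := choose_one hxy hxz hyz hY h
  refine glue (cmb P Q) (cmb d ε) he1 ?_ ?_
  · intro m hm
    rw [mem_sol]
    -- the edge which is replaced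
    have key : ∀ w, (P (x, w) - P (y, w)) ⬝ᵥ (m (some x, w) - m (some y, w)) = 0 := by
      intro w
      have h3 : (Q w - P (x, w)) ⬝ᵥ (m (none, w) - m (some x, w)) = 0 :=
        hm.1 (none, w) (some x, w) (Or.inl ⟨hx, rfl⟩)
      have h4 : (Q w - P (y, w)) ⬝ᵥ (m (none, w) - m (some y, w)) = 0 :=
        hm.1 (none, w) (some y, w) (Or.inl ⟨hy, rfl⟩)
      have e1 : Q w - P (x, w) = (1 / 2 : ℝ) • (P (y, w) - P (x, w)) := by
        rw [hQ]
        funext i
        simp only [Pi.smul_apply, Pi.add_apply, Pi.sub_apply, smul_eq_mul]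
        ring
      have e2 : Q w - P (y, w) = (-(1 / 2) : ℝ) • (P (y, w) - P (x, w)) := by
        rw [hQ]
        funext i
        simp only [Pi.smul_apply, Pi.add_apply, Pi.sub_apply, smul_eq_mul]
        ring
      rw [e1, smul_dotProduct, smul_eq_mul, dotProduct_sub] at h3
      rw [e2, smul_dotProduct, smul_eq_mul, dotProduct_sub] at h4
      have e5 : P (x, w) - P (y, w) = -(P (y, w) - P (x, w)) := by abel
      rw [e5, neg_dotProduct, dotProduct_sub]
      linarith
    refine ⟨fun a b hab => ?_, fun a i => hm.2 (some a.1, a.2) i⟩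
    rcases hab with ⟨h1, h2⟩ | ⟨h1, h2⟩
    · by_cases hs : s(a.1, b.1) = s(x, y)
      · obtain ⟨a1, a2⟩ := a
        obtain ⟨b1, b2⟩ := b
        simp only at h1 h2 hs
        subst h2
        rcases Sym2.eq_iff.1 hs with ⟨rfl, rfl⟩ | ⟨rfl, rfl⟩
        · exact key a2
        · have h5 := key a2
          rw [← neg_sub (P (a1, a2)), ← neg_sub (m (some a1, a2)), neg_dotProduct_neg] at h5
          exact h5
      · exact hm.1 (some a.1, a.2) (some b.1, b.2) (Or.inl ⟨hH _ _ h1 hs, h2⟩)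
    · exact hm.1 (some a.1, a.2) (some b.1, b.2) (Or.inr ⟨h1, congrArg some h2⟩)
  · intro m hm h0
    exact slice_zero (P := cmb P Q) (δ := cmb d ε) hx hz he2 m hm h0

end Pool.Agent.J4H92.PL
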