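import Mathlib
import Pool.Agent.N423.DE.Count

/-!
# Generically rigid graphs in the plane: removal of a vertex
-/

set_option autoImplicit false

namespace Pool.Agent.J4H92.PL

open Pool.Agent.H283R2.DR Pool.Agent.H789R5 Pool.Agent.N423.DE Finset

variable {V : Type} [Fintype V]

/-- the clique on a set -/
theorem mo_iso_lower {d : ℕ} {p : V → Fin d → ℝ} (hp : MG p) {G : SimpleGraph V} {v : V}
    (hv : ∀ u, ¬ G.Adj v u) (hc : d + 1 ≤ Fintype.card V) :
    d * (d + 1) / 2 + d ≤ mo G p := by
  classical
  have h1 : G ≤ Pool.Agent.N423.DE.cmp (univ.erase v) := by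
    intro a b hab
    refine ⟨hab.ne, mem_erase.2 ⟨?_, mem_univ _⟩, mem_erase.2 ⟨?_, mem_univ _⟩⟩
    · rintro rfl
      exact hv b hab
    · rintro rfl
      exact hv a hab.symm
  have h2 := mo_anti h1 p
  have hcard : (univ.erase v).card = Fintype.card V - 1 := by
    rw [card_erase_of_mem (mem_univ v), card_univ]
  obtain ⟨n, hn⟩ := Nat.exists_eq_add_of_le (show d ≤ (univ.erase v).card by omega)
  have h3 := mo_cmp hp n (univ.erase v) hn
  have h4 : d * Fintype.card V = d * (Fintype.card V - 1) + d := by
    have : Fintype.card V = (Fintype.card V - 1) + 1 := by omega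
    conv_lhs => rw [this, Nat.mul_add, Nat.mul_one]
  rw [hcard] at h3
  omega

/-- restricting to the other vertices -/
theorem genRigid_del {d : ℕ} {p : V → Fin d → ℝ} {G : SimpleGraph V} {v : V}
    (hv : ∀ u, ¬ G.Adj v u) (hc : d + 1 ≤ Fintype.card V)
    (h : mo G p ≤ d * (d + 1) / 2 + d) :
    GenRigid d (G.comap (Subtype.val : {u // u ≠ v} → V)) := by
  classical
  set K := G.comap (Subtype.val : {u // u ≠ v} → V) with hK
  set q : {u // u ≠ v} → Fin d → ℝ := fun u => p u with hq
  have h1 : mo K q + d ≤ mo G p := by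
    let g : ((Mot K q) × (Fin d → ℝ)) →ₗ[ℝ] (V → Fin d → ℝ) :=
      { toFun := fun x u => if hu : u ≠ v then x.1.1 ⟨u, hu⟩ else x.2
        map_add' := by
          intro x y
          funext u
          by_cases hu : u ≠ v
          · simp [hu]
          · simp only [Pi.add_apply, dif_neg hu, Prod.snd_add]
        map_smul' := by
          intro c x
          funext u
          by_cases hu : u ≠ v
          · simp [hu]
          · simp only [Pi.smul_apply, dif_neg hu, Prod.smul_snd, RingHom.id_apply] }
    have hg : ∀ x, g x ∈ Mot G p := by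
      intro x
      rw [mem_mot]
      intro a b hab
      have ha : a ≠ v := by
        rintro rfl
        exact hv b hab
      have hb : b ≠ v := by
        rintro rfl
        exact hv a hab.symm
      have h2 := (mem_mot K q x.1.1).1 x.1.2 ⟨a, ha⟩ ⟨b, hb⟩ hab
      show (p a - p b) ⬝ᵥ ((if hu : a ≠ v then x.1.1 ⟨a, hu⟩ else x.2) -
        (if hu : b ≠ v then x.1.1 ⟨b, hu⟩ else x.2)) = 0
      rw [dif_pos ha, dif_pos hb]
      exact h2
    have hinj : Function.Injective (g.codRestrict (Mot G p) hg) := by
      rw [injective_iff_map_eq_zero]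
      rintro ⟨m, t⟩ h0
      rw [Subtype.ext_iff] at h0
      have h0 : g (m, t) = 0 := h0
      have e1 : m = 0 := by
        refine Subtype.ext ?_
        show m.1 = 0
        funext u
        have h2 := congrFun h0 u
        have h3 : (if hu : (u : V) ≠ v then m.1 ⟨u, hu⟩ else t) = 0 := h2
        rw [dif_pos u.2] at h3
        exact h3
      have e2 : t = 0 := by
        have h2 := congrFun h0 v
        have h3 : (if hu : v ≠ v then m.1 ⟨v, hu⟩ else t) = 0 := h2
        rwa [dif_neg (by simp)] at h3
      rw [e1, e2]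
      rfl
    have h2 := LinearMap.finrank_le_finrank_of_injective hinj
    rw [Module.finrank_prod, Module.finrank_fin_fun] at h2
    exact h2
  obtain ⟨p', hp'⟩ := exists_mg {u // u ≠ v} d
  have hc' : d ≤ Fintype.card {u // u ≠ v} := by
    rw [Fintype.card_subtype_compl, Fintype.card_subtype_eq]
    omega
  rw [genRigid_iff hp' hc']
  have := hp'.min K q
  omega

/-- `K` arises from `H` by removing the vertex `z` -/
def Down (H : SimpleGraph V) (z : V) (K : SimpleGraph {u // u ≠ z}) : Prop :=
  (∃ x y : {u // u ≠ z}, x ≠ y ∧ H.Adj z x ∧ H.Adj z y ∧ ∀ a b, K.Adj a b → H.Adj a b) ∨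
  ∃ x y w : {u // u ≠ z}, x ≠ y ∧ x ≠ w ∧ y ≠ w ∧ H.Adj z x ∧ H.Adj z y ∧ H.Adj z w ∧
    ∀ a b, K.Adj a b → s(a, b) ≠ s(x, y) → H.Adj a b

/-- **Each plane graph has a vertex that can be removed.** -/
theorem step (H : SimpleGraph V) (hH : GenRigid 2 H) (hV : 3 ≤ Fintype.card V) :
    ∃ (z : V) (K : SimpleGraph {u // u ≠ z}), GenRigid 2 K ∧ Down H z K := by
  classical
  obtain ⟨p, hp⟩ := exists_mg V 2
  have h1 := (genRigid_iff hp (by omega) H).1 hH
  norm_num at h1
  obtain ⟨B, -, hBH, hB1, hB2⟩ := exists_basis p (S := ⊥) (G := H) bot_le (by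
    have := mo_le (⊥ : SimpleGraph V) p
    simpa using this)
  have hBl : mo B p ≤ 3 := by omega
  -- a vertex of small degree
  obtain ⟨z, hz⟩ : ∃ z, (nb B z).card ≤ 3 := by
    by_contra hcon
    push Not at hcon
    have h2 := handshake B
    have h3 : ∑ v : V, 4 ≤ ∑ v, (nb B v).card := sum_le_sum fun v _ => hcon v
    rw [sum_const, card_univ, smul_eq_mul] at h3
    have h4 : 3 ≤ mo B p := by
      have h5 := mo_lower B p
      by_contra h6
      push Not at h6
      -- rigid motions
      have h7 : mo (⊤ : SimpleGraph V) p ≤ mo B p := mo_anti le_top p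
      have h8 := mo_cmp hp (Fintype.card V - 2) univ (by rw [card_univ]; omega)
      have h9 : mo (Pool.Agent.N423.DE.cmp univ) p ≤ mo B p := by
        apply mo_anti
        intro a b hab
        exact ⟨hab.ne, mem_univ _, mem_univ _⟩
      rw [card_univ] at h8
      omega
    omega
  have hdel := mo_del_le B p z
  have hlow := mo_iso_lower hp (G := B.deleteIncidenceSet z) (v := z)
    (del_isolated B z) (by omega)
  norm_num at hlow
  have h2 : 2 ≤ (nb B z).card := by omega
  have hiso := del_isolated B z
  rcases Nat.lt_or_ge (nb B z).card 3 with h3 | h3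
  · -- degree two
    obtain ⟨x, y, hxy, hN⟩ := card_eq_two.1 (show (nb B z).card = 2 by omega)
    have hx : B.Adj z x := mem_nb.1 (by rw [hN]; simp)
    have hy : B.Adj z y := mem_nb.1 (by rw [hN]; simp)
    refine ⟨z, (B.deleteIncidenceSet z).comap Subtype.val, genRigid_del (p := p) hiso (by omega)
      (by norm_num; omega), Or.inl ⟨⟨x, hx.ne'⟩, ⟨y, hy.ne'⟩, fun h => hxy (congrArg Subtype.val h),
        hBH hx, hBH hy, ?_⟩⟩
    intro a b hab
    exact hBH (B.deleteIncidenceSet_le z hab)
  · -- degree three
    obtain ⟨x, y, w, hxy, hxw, hyw, hN⟩ := card_eq_three.1 (show (nb B z).card = 3 by omega)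
    have hmem : ∀ t ∈ nb B z, B.Adj z t := fun t ht => mem_nb.1 ht
    by_cases hall : ∀ a ∈ nb B z, ∀ b ∈ nb B z, a ≠ b → Imp (B.deleteIncidenceSet z) p a b
    · -- all pairs of neighbours are implied
      have hx : B.Adj z x := hmem x (by rw [hN]; simp)
      have hy : B.Adj z y := hmem y (by rw [hN]; simp)
      have hkey : mo (B.deleteIncidenceSet z) p ≤ 5 := by
        set F := B ⊔ Pool.Agent.N423.DE.cmp (nb B z) with hF
        have hnb : nb F z = nb B z := by
          ext t
          rw [mem_nb, hF, SimpleGraph.sup_adj, mem_nb]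
          constructor
          · rintro (h | h)
            · exact h
            · exact absurd h.2.1 (not_mem_nb B z)
          · exact Or.inl
        have h4 := gain_clique hp (G := F) (v := z) (by
          intro a ha b hb hab
          rw [hnb] at ha hb
          exact Or.inr ⟨hab, ha, hb⟩)
        have h5 : mo (B.deleteIncidenceSet z) p ≤ mo (F.deleteIncidenceSet z) p := by
          apply mo_le_of_imp
          intro a b hab
          rw [SimpleGraph.deleteIncidenceSet_adj, hF, SimpleGraph.sup_adj] at hab
          obtain ⟨h | h, ha, hb⟩ := hab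
          · exact imp_of_adj (by rw [SimpleGraph.deleteIncidenceSet_adj]; exact ⟨h, ha, hb⟩)
          · exact hall a h.2.1 b h.2.2 h.1
        have h6 : mo F p ≤ mo B p := mo_anti le_sup_left p
        omega
      refine ⟨z, (B.deleteIncidenceSet z).comap Subtype.val, genRigid_del (p := p) hiso (by omega)
        (by norm_num; omega), Or.inl ⟨⟨x, hx.ne'⟩, ⟨y, hy.ne'⟩,
        fun h => hxy (congrArg Subtype.val h), hBH hx, hBH hy, ?_⟩⟩
      intro a b hab
      exact hBH (B.deleteIncidenceSet_le z hab)
    · push Not at hall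
      obtain ⟨a, ha, b, hb, hab, himp⟩ := hall
      obtain ⟨c, hc, hac, hbc⟩ : ∃ c ∈ nb B z, a ≠ c ∧ b ≠ c := by
        have h4 : (((nb B z).erase a).erase b).Nonempty := by
          rw [← card_pos, card_erase_of_mem (mem_erase.2 ⟨hab.symm, hb⟩), card_erase_of_mem ha]
          omega
        obtain ⟨c, hc⟩ := h4
        rw [mem_erase, mem_erase] at hc
        exact ⟨c, hc.2.2, fun h => hc.2.1 h.symm, fun h => hc.1 h.symm⟩
      have ha' := hmem a ha
      have hb' := hmem b hb
      have hc' := hmem c hc
      have h4 := mo_lt_of_not_imp hab himp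
      set F := B.deleteIncidenceSet z ⊔ SimpleGraph.edge a b with hF
      have hFiso : ∀ u, ¬ F.Adj z u := by
        intro u h
        rw [hF, SimpleGraph.sup_adj] at h
        rcases h with h | h
        · exact hiso u h
        · rw [SimpleGraph.edge_adj] at h
          rcases h.1 with h | h
          · exact ha'.ne h.1
          · exact hb'.ne h.1
      refine ⟨z, F.comap Subtype.val, genRigid_del (p := p) hFiso (by omega)
        (by norm_num; omega), Or.inr ⟨⟨a, ha'.ne'⟩, ⟨b, hb'.ne'⟩, ⟨c, hc'.ne'⟩,
          fun h => hab (congrArg Subtype.val h), fun h => hac (congrArg Subtype.val h),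
          fun h => hbc (congrArg Subtype.val h), hBH ha', hBH hb', hBH hc', ?_⟩⟩
      rintro ⟨s, hs⟩ ⟨t, ht⟩ hst hne
      have hst : F.Adj s t := hst
      rw [hF, SimpleGraph.sup_adj] at hst
      rcases hst with h | h
      · exact hBH (B.deleteIncidenceSet_le z h)
      · exfalso
        rw [SimpleGraph.edge_adj] at h
        apply hne
        rcases h.1 with ⟨rfl, rfl⟩ | ⟨rfl, rfl⟩
        · rfl
        · exact Sym2.eq_swap

end Pool.Agent.J4H92.PL
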