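import Pool.Agent.J4H92.PL.Up

/-!
# Removal of vertices outside a rigid subgraph
-/

set_option autoImplicit false

namespace Pool.Agent.J4H92.PL

open Pool.Agent.H283R2.DR Pool.Agent.H789R5 Pool.Agent.N423.DE Finset Matrix

variable {V : Type} [Fintype V]

/-- the removal of a vertex with at most three neighbours -/
theorem core {p : V → Fin 2 → ℝ} (hp : MG p) {B H F : SimpleGraph V} (hBH : B ≤ H)
    (hB : mo B p ≤ 3) (hF : F ≤ H) {z : V} (hz : (nb B z).card ≤ 3) (hFz : ∀ u, ¬ F.Adj z u)
    (hV : 3 ≤ Fintype.card V) :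
    ∃ K : SimpleGraph {u // u ≠ z}, GenRigid 2 K ∧ Down H z K ∧
      ∀ a b : {u // u ≠ z}, F.Adj a b → K.Adj a b := by
  classical
  have hdel := mo_del_le B p z
  have hlow := mo_iso_lower hp (G := B.deleteIncidenceSet z) (v := z)
    (del_isolated B z) (by omega)
  norm_num at hlow
  have h2 : 2 ≤ (nb B z).card := by omega
  have hiso := del_isolated B z
  -- the case of two neighbours
  have two : ∀ x y : V, B.Adj z x → B.Adj z y → x ≠ y → mo (B.deleteIncidenceSet z) p ≤ 5 →
      ∃ K : SimpleGraph {u // u ≠ z}, GenRigid 2 K ∧ Down H z K ∧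
        ∀ a b : {u // u ≠ z}, F.Adj a b → K.Adj a b := by
    intro x y hx hy hxy h5
    have h6 : mo (B.deleteIncidenceSet z ⊔ F) p ≤ 5 := (mo_anti le_sup_left p).trans h5
    refine ⟨(B.deleteIncidenceSet z ⊔ F).comap Subtype.val, genRigid_del (p := p) ?_ (by omega)
      (by norm_num; omega), Or.inl ⟨⟨x, hx.ne'⟩, ⟨y, hy.ne'⟩, fun h => hxy (congrArg Subtype.val h),
        hBH hx, hBH hy, ?_⟩, fun a b hab => Or.inr hab⟩
    · rintro u (h | h)
      · exact hiso u h
      · exact hFz u h
    · rintro a b (hab | hab)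
      · exact hBH (B.deleteIncidenceSet_le z hab)
      · exact hF hab
  rcases Nat.lt_or_ge (nb B z).card 3 with h3 | h3
  · obtain ⟨x, y, hxy, hN⟩ := card_eq_two.1 (show (nb B z).card = 2 by omega)
    exact two x y (mem_nb.1 (by rw [hN]; simp)) (mem_nb.1 (by rw [hN]; simp)) hxy (by omega)
  · obtain ⟨x, y, w, hxy, hxw, hyw, hN⟩ := card_eq_three.1 (show (nb B z).card = 3 by omega)
    have hmem : ∀ t ∈ nb B z, B.Adj z t := fun t ht => mem_nb.1 ht
    by_cases hall : ∀ a ∈ nb B z, ∀ b ∈ nb B z, a ≠ b → Imp (B.deleteIncidenceSet z) p a b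
    · refine two x y (hmem x (by rw [hN]; simp)) (hmem y (by rw [hN]; simp)) hxy ?_
      set F' := B ⊔ Pool.Agent.N423.DE.cmp (nb B z) with hF'
      have hnb : nb F' z = nb B z := by
        ext t
        rw [mem_nb, hF', SimpleGraph.sup_adj, mem_nb]
        constructor
        · rintro (h | h)
          · exact h
          · exact absurd h.2.1 (not_mem_nb B z)
        · exact Or.inl
      have h4 := gain_clique hp (G := F') (v := z) (by
        intro a ha b hb hab
        rw [hnb] at ha hb
        exact Or.inr ⟨hab, ha, hb⟩)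
      have h5 : mo (B.deleteIncidenceSet z) p ≤ mo (F'.deleteIncidenceSet z) p := by
        apply mo_le_of_imp
        intro a b hab
        rw [SimpleGraph.deleteIncidenceSet_adj, hF', SimpleGraph.sup_adj] at hab
        obtain ⟨h | h, ha, hb⟩ := hab
        · exact imp_of_adj (by rw [SimpleGraph.deleteIncidenceSet_adj]; exact ⟨h, ha, hb⟩)
        · exact hall a h.2.1 b h.2.2 h.1
      have h6 : mo F' p ≤ mo B p := mo_anti le_sup_left p
      omega
    · push Not at hall
      obtain ⟨a, ha, b, hb, hab, himp⟩ := hall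
      obtain ⟨c, hc, hac, hbc⟩ : ∃ c ∈ nb B z, a ≠ c ∧ b ≠ c := by
        have h4 : (((nb B z).erase a).erase b).Nonempty := by
          rw [← card_pos, card_erase_of_mem (mem_erase.2 ⟨hab.symm, hb⟩), card_erase_of_mem ha]
          omega
        obtain ⟨c, hc⟩ := h4
        rw [mem_erase, mem_erase] at hc
        exact ⟨c, hc.2.2, fun h => hc.2.1 h.symm, fun h => hc.1 h.symm⟩
      have ha' := hmem a ha
      have hb' := hmem b hb
      have hc' := hmem c hc
      have h4 := mo_lt_of_not_imp hab himp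
      set E := B.deleteIncidenceSet z ⊔ SimpleGraph.edge a b with hE
      have hEiso : ∀ u, ¬ E.Adj z u := by
        intro u h
        rw [hE, SimpleGraph.sup_adj] at h
        rcases h with h | h
        · exact hiso u h
        · rw [SimpleGraph.edge_adj] at h
          rcases h.1 with h | h
          · exact ha'.ne h.1
          · exact hb'.ne h.1
      have h6 : mo (E ⊔ F) p ≤ mo E p := mo_anti le_sup_left p
      refine ⟨(E ⊔ F).comap Subtype.val, genRigid_del (p := p) ?_ (by omega)
        (by norm_num; omega), Or.inr ⟨⟨a, ha'.ne'⟩, ⟨b, hb'.ne'⟩, ⟨c, hc'.ne'⟩,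
          fun h => hab (congrArg Subtype.val h), fun h => hac (congrArg Subtype.val h),
          fun h => hbc (congrArg Subtype.val h), hBH ha', hBH hb', hBH hc', ?_⟩,
          fun s t hst => Or.inr hst⟩
      · rintro u (h | h)
        · exact hEiso u h
        · exact hFz u h
      rintro ⟨s, hs⟩ ⟨t, ht⟩ hst hne
      have hst : (E ⊔ F).Adj s t := hst
      rcases hst with h | h
      · rw [hE, SimpleGraph.sup_adj] at h
        rcases h with h | h
        · exact hBH (B.deleteIncidenceSet_le z h)
        · exfalso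
          rw [SimpleGraph.edge_adj] at h
          apply hne
          rcases h.1 with ⟨rfl, rfl⟩ | ⟨rfl, rfl⟩
          · rfl
          · exact Sym2.eq_swap
      · exact hF h

/-- a skew matrix of size two with a nonzero vector in its kernel vanishes -/
theorem skew_two {A : Matrix (Fin 2) (Fin 2) ℝ} (hA : Aᵀ = -A) {x : Fin 2 → ℝ} (hx : x ≠ 0)
    (h : A *ᵥ x = 0) : A = 0 := by
  have h00 : A 0 0 = 0 := by
    have := congrFun (congrFun hA 0) 0
    simp only [transpose_apply, Matrix.neg_apply] at this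
    linarith
  have h11 : A 1 1 = 0 := by
    have := congrFun (congrFun hA 1) 1
    simp only [transpose_apply, Matrix.neg_apply] at this
    linarith
  have h01 : A 1 0 = - A 0 1 := by
    have := congrFun (congrFun hA 0) 1
    simpa only [transpose_apply, Matrix.neg_apply] using this
  have e0 : A 0 1 * x 1 = 0 := by
    have := congrFun h 0
    simp only [mulVec, dotProduct, Fin.sum_univ_two, h00, zero_mul, zero_add,
      Pi.zero_apply] at this
    exact this
  have e1 : A 0 1 * x 0 = 0 := by
    have := congrFun h 1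
    simp only [mulVec, dotProduct, Fin.sum_univ_two, h11, zero_mul, add_zero, h01,
      Pi.zero_apply] at this
    linarith
  have hA01 : A 0 1 = 0 := by
    by_contra hne
    apply hx
    funext i
    fin_cases i
    · simpa using (mul_eq_zero.1 e1).resolve_left hne
    · simpa using (mul_eq_zero.1 e0).resolve_left hne
  ext i j
  fin_cases i <;> fin_cases j <;> simp [h00, h11, h01, hA01]

/-- a rigid graph in the plane has an edge between a set with two vertices and the rest -/
theorem cross {p : V → Fin 2 → ℝ} (hp : MG p) {B : SimpleGraph V} (hB : mo B p ≤ 3)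
    (hV : 2 ≤ Fintype.card V) {S : Set V} {s s' t : V} (hs : s ∈ S) (hs' : s' ∈ S)
    (hss : s ≠ s') (ht : t ∉ S) : ∃ a ∈ S, ∃ b ∉ S, B.Adj a b := by
  classical
  by_contra hno
  push Not at hno
  have h1 := (genRigid_iff hp hV B).2 (by norm_num; exact hB)
  have h2 := (hp.toGen.genRigid_iff B).1 h1
  obtain ⟨A, b, hA, hb⟩ := h2 (fun v => if v ∈ S then (fun _ => 1) else 0) (by
    intro u _ v _ huv
    by_cases hu : u ∈ S
    · have hv : v ∈ S := by
        by_contra hv
        exact hno u hu v hv huv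
      simp [hu, hv]
    · have hv : v ∉ S := fun hv => hno v hv u hu huv.symm
      simp [hu, hv])
  have e1 := hb s trivial
  have e2 := hb s' trivial
  have e3 := hb t trivial
  rw [if_pos hs] at e1
  rw [if_pos hs'] at e2
  rw [if_neg ht] at e3
  have hA0 : A = 0 := by
    refine skew_two hA (x := p s - p s') (sub_ne_zero.2 (p_ne hp (by norm_num) hss)) ?_
    rw [mulVec_sub]
    have : A *ᵥ p s + b = A *ᵥ p s' + b := e1.symm.trans e2
    rw [sub_eq_zero]
    exact add_right_cancel this
  rw [hA0, zero_mulVec, zero_add] at e1 e3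
  have := congrFun (e1.trans e3.symm) 0
  simp at this

/-- the image of a graph under an injection -/
theorem mo_map {A : Type} [Fintype A] {d : ℕ} {B : SimpleGraph A} {pA : A → Fin d → ℝ}
    {p : V → Fin d → ℝ} (hp : MG p) (φ : A ↪ V) :
    mo (B.map φ) p + d * Fintype.card A ≤ mo B pA + d * Fintype.card V := by
  classical
  let p' : V → Fin d → ℝ := fun v => if h : ∃ a, φ a = v then pA h.choose else 0
  have hp' : ∀ a, p' (φ a) = pA a := by
    intro a
    have h : ∃ a', φ a' = φ a := ⟨a, rfl⟩
    have h1 : h.choose = a := φ.injective h.choose_spec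
    simp only [p', dif_pos h, h1]
  have h1 := hp.min (B.map φ) p'
  have h2 : mo (B.map φ) p' ≤ mo B pA + d * Fintype.card {v : V // ∀ a, φ a ≠ v} := by
    let g : (V → Fin d → ℝ) →ₗ[ℝ] ((A → Fin d → ℝ) × ({v : V // ∀ a, φ a ≠ v} → Fin d → ℝ)) :=
      { toFun := fun q => (fun a => q (φ a), fun v => q v)
        map_add' := fun _ _ => rfl
        map_smul' := fun _ _ => rfl }
    have hg : ∀ q ∈ Mot (B.map φ) p', (g q).1 ∈ Mot B pA := by
      intro q hq
      rw [mem_mot] at *
      intro a b hab
      have := hq (φ a) (φ b) ((SimpleGraph.map_adj _ _ _ _).2 ⟨a, b, hab, rfl, rfl⟩)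
      rw [hp', hp'] at this
      exact this
    let g' : Mot (B.map φ) p' →ₗ[ℝ] (Mot B pA × ({v : V // ∀ a, φ a ≠ v} → Fin d → ℝ)) :=
      { toFun := fun q => (⟨(g q).1, hg q q.2⟩, (g q).2)
        map_add' := fun _ _ => rfl
        map_smul' := fun _ _ => rfl }
    have hinj : Function.Injective g' := by
      rw [injective_iff_map_eq_zero]
      rintro ⟨q, hq⟩ h0
      have h3 : (fun a => q (φ a)) = 0 := congrArg (fun x => (x.1 : A → Fin d → ℝ)) h0
      have h4 : (fun v : {v : V // ∀ a, φ a ≠ v} => q v) = 0 := congrArg (fun x => x.2) h0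
      refine Subtype.ext ?_
      show q = 0
      funext v
      by_cases hv : ∃ a, φ a = v
      · obtain ⟨a, rfl⟩ := hv
        exact congrFun h3 a
      · push Not at hv
        exact congrFun h4 ⟨v, hv⟩
    have h5 := LinearMap.finrank_le_finrank_of_injective hinj
    rw [Module.finrank_prod, finrank_all] at h5
    exact h5
  have h3 : Fintype.card {v : V // ∀ a, φ a ≠ v} + Fintype.card A = Fintype.card V := by
    have h4 : (univ.filter fun v : V => ¬ ∀ a, φ a ≠ v).card = Fintype.card A := by
      have : (univ.filter fun v : V => ¬ ∀ a, φ a ≠ v) = univ.map φ := by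
        ext v
        simp
      rw [this, card_map, card_univ]
    have h5 := card_filter_add_card_filter_not (s := (univ : Finset V))
      (fun v : V => ∀ a, φ a ≠ v)
    rw [h4, card_univ] at h5
    rw [Fintype.card_subtype]
    exact h5
  rw [← h3]
  nlinarith

omit [Fintype V] in
theorem ncard_map {A : Type} (B : SimpleGraph A) (φ : A ↪ V) :
    (B.map φ).edgeSet.ncard = B.edgeSet.ncard := by
  rw [SimpleGraph.edgeSet_map]
  exact Set.ncard_image_of_injective _ φ.sym2Map.injective

/-- **Removal of a vertex outside a rigid subgraph.** -/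
theorem step_rel {A : Type} [Fintype A] {F0 : SimpleGraph A} (hF0 : GenRigid 2 F0)
    (hA : 2 ≤ Fintype.card A) {H : SimpleGraph V} (hH : GenRigid 2 H) (φ : A ↪ V)
    (hhom : ∀ a b, F0.Adj a b → H.Adj (φ a) (φ b)) (hlt : Fintype.card A < Fintype.card V) :
    ∃ (z : V) (hz : ∀ a, φ a ≠ z) (K : SimpleGraph {u // u ≠ z}), GenRigid 2 K ∧ Down H z K ∧
      ∀ a b, F0.Adj a b → K.Adj ⟨φ a, hz a⟩ ⟨φ b, hz b⟩ := by
  classical
  obtain ⟨p, hp⟩ := exists_mg V 2
  obtain ⟨pA, hpA⟩ := exists_mg A 2
  have h0 := (genRigid_iff hpA hA F0).1 hF0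
  have h1 := (genRigid_iff hp (by omega) H).1 hH
  norm_num at h0 h1
  obtain ⟨B0, -, hB0F, hB01, hB02⟩ := exists_basis pA (S := ⊥) (G := F0) bot_le (by
    have := mo_le (⊥ : SimpleGraph A) pA
    simpa using this)
  have hmap := mo_map (B := B0) (pA := pA) hp φ
  have hnc := ncard_map B0 φ
  have hle : F0.map φ ≤ H := by
    intro a b hab
    rw [SimpleGraph.map_adj] at hab
    obtain ⟨a', b', h, rfl, rfl⟩ := hab
    exact hhom a' b' h
  have hle0 : B0.map φ ≤ F0.map φ := SimpleGraph.map_monotone φ hB0F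
  obtain ⟨B, hFB, hBH, hB1, hB2⟩ := exists_basis p (S := B0.map φ) (G := H) (hle0.trans hle) (by
    omega)
  have hBl : mo B p ≤ 3 := by omega
  -- a vertex of small degree outside
  obtain ⟨z, hz, hzd⟩ : ∃ z, (∀ a, φ a ≠ z) ∧ (nb B z).card ≤ 3 := by
    by_contra hcon
    push Not at hcon
    -- the other edges
    set B' := B \ B0.map φ with hB'
    have hsum := handshake B'
    have hcardB : B'.edgeSet.ncard + (B0.map φ).edgeSet.ncard = B.edgeSet.ncard := by
      rw [hB', SimpleGraph.edgeSet_sdiff]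
      exact Set.ncard_sdiff_add_ncard_of_subset (SimpleGraph.edgeSet_mono hFB)
    have hout : ∀ v, (∀ a, φ a ≠ v) → 4 ≤ (nb B' v).card := by
      intro v hv
      refine Nat.succ_le_of_lt ((hcon v hv).trans_le (card_le_card ?_))
      intro u hu
      rw [mem_nb] at hu ⊢
      rw [hB', SimpleGraph.sdiff_adj]
      refine ⟨hu, fun h => ?_⟩
      rw [SimpleGraph.map_adj] at h
      obtain ⟨a', b', h, h', -⟩ := h
      exact hv a' h'
    obtain ⟨a0, a1, ha01⟩ : ∃ a0 a1 : A, a0 ≠ a1 := by
      have : 1 < Fintype.card A := by omega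
      exact Fintype.exists_pair_of_one_lt_card this
    obtain ⟨t, ht⟩ : ∃ t, ∀ a, φ a ≠ t := by
      by_contra h
      push Not at h
      have := Fintype.card_le_of_surjective φ h
      omega
    obtain ⟨a, ⟨a', rfl⟩, b, hb, hab⟩ := cross hp hBl (by omega) (S := Set.range φ)
      (s := φ a0) (s' := φ a1) (t := t) ⟨a0, rfl⟩ ⟨a1, rfl⟩ (fun h => ha01 (φ.injective h))
      (by rintro ⟨a, ha⟩; exact ht a ha)
    have hin : 1 ≤ (nb B' (φ a')).card := by
      rw [Nat.one_le_iff_ne_zero, ← Nat.pos_iff_ne_zero, card_pos]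
      refine ⟨b, mem_nb.2 ?_⟩
      rw [hB', SimpleGraph.sdiff_adj]
      refine ⟨hab, fun h => ?_⟩
      rw [SimpleGraph.map_adj] at h
      obtain ⟨c, c', -, -, h'⟩ := h
      exact hb ⟨c', h'⟩
    -- counting
    set T : Finset V := univ.filter fun v => ∀ a, φ a ≠ v with hT
    have hTcard : T.card + Fintype.card A = Fintype.card V := by
      have h4 : (univ.filter fun v : V => ¬ ∀ a, φ a ≠ v).card = Fintype.card A := by
        have : (univ.filter fun v : V => ¬ ∀ a, φ a ≠ v) = univ.map φ := by
          ext v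
          simp
        rw [this, card_map, card_univ]
      have h5 := card_filter_add_card_filter_not (s := (univ : Finset V))
        (fun v : V => ∀ a, φ a ≠ v)
      rw [h4, card_univ] at h5
      exact h5
    have hsumT : ∑ v ∈ T, 4 ≤ ∑ v ∈ T, (nb B' v).card := sum_le_sum fun v hv => by
      rw [hT, mem_filter] at hv
      exact hout v hv.2
    rw [sum_const, smul_eq_mul] at hsumT
    have haT : φ a' ∉ T := by
      rw [hT, mem_filter]
      rintro ⟨-, h⟩
      exact h a' rfl
    have hsplit : ∑ v ∈ insert (φ a') T, (nb B' v).card ≤ ∑ v, (nb B' v).card :=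
      sum_le_sum_of_subset (subset_univ _)
    rw [sum_insert haT] at hsplit
    have hmoB : 3 ≤ mo B p := by
      have h8 := mo_cmp hp (Fintype.card V - 2) univ (by rw [card_univ]; omega)
      have h9 : mo (Pool.Agent.N423.DE.cmp univ) p ≤ mo B p := by
        apply mo_anti
        intro a b hab
        exact ⟨hab.ne, mem_univ _, mem_univ _⟩
      rw [card_univ] at h8
      omega
    omega
  obtain ⟨K, hK, hd, hKF⟩ := core hp hBH hBl hle hzd (by
    intro u h
    rw [SimpleGraph.map_adj] at h
    obtain ⟨a', b', -, h', -⟩ := h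
    exact hz a' h') (by omega)
  refine ⟨z, hz, K, hK, hd, fun a b hab => hKF _ _ ?_⟩
  exact (SimpleGraph.map_adj _ _ _ _).2 ⟨a, b, hab, rfl, rfl⟩

open SimpleGraph Pool.Agent.J4H92.CP in
/-- **Closure under extensions, relative form.** -/
theorem up_rel {A W : Type} [Fintype A] [Finite W] {F0 : SimpleGraph A} (Y : SimpleGraph W)
    {j k : ℕ} (hF0 : GenRigid 2 F0) (hA : 2 ≤ Fintype.card A) (hY : Mu (j + 2) 0 Y)
    (hb : Mu j k (F0 □ Y)) : ∀ n (U : Type) [Fintype U] (H : SimpleGraph U), GenRigid 2 H →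
      Fintype.card U = Fintype.card A + n → ∀ φ : A ↪ U,
      (∀ a b, F0.Adj a b → H.Adj (φ a) (φ b)) → Mu j k (H □ Y) := by
  intro n
  induction n with
  | zero =>
    intro U _ H _ hU φ hhom
    classical
    have hbij : Function.Bijective φ :=
      (Fintype.bijective_iff_injective_and_card φ).2 ⟨φ.injective, by omega⟩
    let e : A ≃ U := Equiv.ofBijective φ hbij
    refine hb.pull (Equiv.prodCongr e (Equiv.refl W)).symm ?_
    rintro ⟨a, a'⟩ ⟨b, b'⟩ hab
    rcases hab with ⟨h1, h2⟩ | ⟨h1, h2⟩
    · exact Or.inl ⟨hhom a b h1, h2⟩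
    · refine Or.inr ⟨h1, ?_⟩
      exact congrArg φ h2
  | succ n ih =>
    intro U _ H hH hU φ hhom
    classical
    obtain ⟨z, hz, K, hK, hd, hKF⟩ := step_rel hF0 hA hH φ hhom (by omega)
    refine up_step hd hY (ih {u // u ≠ z} K hK ?_ ⟨fun a => ⟨φ a, hz a⟩, fun a b h => ?_⟩ hKF)
    · rw [Fintype.card_subtype_compl, Fintype.card_subtype_eq, hU]
      omega
    · exact φ.injective (congrArg Subtype.val h)

end Pool.Agent.J4H92.PL
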