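import Pool.Agent.J4H92.PL.Up
import Pool.Agent.J4H92.CP.Cert

/-!
# The small minimally rigid plane graphs
-/

set_option autoImplicit false

namespace Pool.Agent.J4H92.PL

open SimpleGraph Pool.Agent.J4H92.CP Pool.Agent.H283R2.DR

/-- the code of a small graph: a matrix of bits with rows of length eight -/
def eM (M u v : ℕ) : Bool := Nat.testBit M (8 * u + v)

/-- a new vertex `n` joined to `i` and `j` -/
def a0 (M n i j u v : ℕ) : Bool :=
  (Nat.blt u n && (Nat.blt v n && eM M u v)) ||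
    ((Nat.beq u n && (Nat.beq v i || Nat.beq v j)) ||
      (Nat.beq v n && (Nat.beq u i || Nat.beq u j)))

/-- a new vertex `n` joined to `i`, `j` and `k`, the edge `ij` is removed -/
def a1 (M n i j k u v : ℕ) : Bool :=
  (Nat.blt u n && (Nat.blt v n && (eM M u v &&
    (!(Nat.beq u i && Nat.beq v j) && !(Nat.beq u j && Nat.beq v i))))) ||
    ((Nat.beq u n && (Nat.beq v i || (Nat.beq v j || Nat.beq v k))) ||
      (Nat.beq v n && (Nat.beq u i || (Nat.beq u j || Nat.beq u k))))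

/-- a digit of a permutation -/
def sg (S u : ℕ) : ℕ := (S >>> (3 * u)) &&& 7

/-- `S` maps the graph `M'` with `n` vertices into the graph `a` -/
def okE (n : ℕ) (a : ℕ → ℕ → Bool) (M' S : ℕ) : Bool :=
  ball (fun u => Nat.blt (sg S u) n && ball (fun v =>
    (Nat.beq u v || !(Nat.beq (sg S u) (sg S v))) && (!(eM M' u v) || a (sg S u) (sg S v))) n) n

theorem okE_spec {U : Type} [Fintype U] {H : SimpleGraph U} {n : ℕ} {a : ℕ → ℕ → Bool} {M' S : ℕ}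
    (hH : Coded H n a) (h : okE n a M' S = true) : Coded H n (eM M') := by
  classical
  obtain ⟨e, he⟩ := hH
  have h1 := ball_spec h
  have h2 : ∀ u : Fin n, sg S u < n := by
    intro u
    have := h1 u u.2
    rw [Bool.and_eq_true] at this
    have h3 := this.1
    rwa [Nat.blt_eq] at h3
  let s : Fin n → Fin n := fun u => ⟨sg S u, h2 u⟩
  have h3 : ∀ u v : Fin n, (u = v ∨ s u ≠ s v) ∧ (eM M' u v = true → a (s u) (s v) = true) := by
    intro u v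
    have h4 := h1 u u.2
    rw [Bool.and_eq_true] at h4
    have h5 := ball_spec h4.2 v v.2
    rw [Bool.and_eq_true, Bool.or_eq_true, Bool.or_eq_true] at h5
    refine ⟨?_, fun h6 => ?_⟩
    · rcases h5.1 with h6 | h6
      · exact Or.inl (Fin.ext (Nat.eq_of_beq_eq_true h6))
      · refine Or.inr fun h7 => ?_
        have h8 : sg S u = sg S v := congrArg Fin.val h7
        rw [h8] at h6
        simp at h6
    · rcases h5.2 with h7 | h7
      · rw [h6] at h7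
        simp at h7
      · exact h7
  have hinj : Function.Injective s := by
    intro u v huv
    rcases (h3 u v).1 with h | h
    · exact h
    · exact absurd huv h
  let σ : Fin n ≃ Fin n := Equiv.ofBijective s (Finite.injective_iff_bijective.1 hinj)
  refine ⟨e.trans σ.symm, fun u v huv => ?_⟩
  have h4 := he _ _ ((h3 u v).2 huv)
  exact h4

/-- the new numbering -/
theorem exists_num {U : Type} [Fintype U] {z : U} {n : ℕ} (e : {u // u ≠ z} ≃ Fin n) :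
    ∃ e' : U ≃ Fin (n + 1), (∀ i : Fin n, e'.symm i.castSucc = e.symm i) ∧
      e'.symm (Fin.last n) = z := by
  classical
  refine ⟨(Equiv.optionSubtypeNe z).symm.trans ((Equiv.optionCongr e).trans
    finSuccEquivLast.symm), ?_, ?_⟩
  · intro i
    simp
    rfl
  · simp
    rfl

theorem coded_zero {U : Type} [Fintype U] {H : SimpleGraph U} {z : U}
    {K : SimpleGraph {u // u ≠ z}} {n M : ℕ} {e : {u // u ≠ z} ≃ Fin n}
    (he : ∀ u v : Fin n, eM M u v = true → K.Adj (e.symm u) (e.symm v))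
    (hK : ∀ a b, K.Adj a b → H.Adj a b) {i j : Fin n} (hi : H.Adj z (e.symm i))
    (hj : H.Adj z (e.symm j)) : Coded H (n + 1) (a0 M n i j) := by
  obtain ⟨e', h1, h2⟩ := exists_num e
  refine ⟨e', fun u v huv => ?_⟩
  have hil := i.2
  have hjl := j.2
  rw [a0, Bool.or_eq_true, Bool.or_eq_true] at huv
  induction u using Fin.lastCases with
  | last =>
    induction v using Fin.lastCases with
    | last =>
      exfalso
      rcases huv with h | h | h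
      · simp at h
      · simp at h
        omega
      · simp at h
        omega
    | cast v =>
      rw [h1, h2]
      rcases huv with h | h | h
      · simp at h
      · simp at h
        rcases h with h | h
        · have : v = i := Fin.ext h
          rw [this]
          exact hi
        · have : v = j := Fin.ext h
          rw [this]
          exact hj
      · simp at h
        omega
  | cast u =>
    induction v using Fin.lastCases with
    | last =>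
      rw [h1, h2]
      rcases huv with h | h | h
      · simp at h
      · simp at h
        omega
      · simp at h
        rcases h with h | h
        · have : u = i := Fin.ext h
          rw [this]
          exact hi.symm
        · have : u = j := Fin.ext h
          rw [this]
          exact hj.symm
    | cast v =>
      rw [h1, h1]
      rcases huv with h | h | h
      · rw [Bool.and_eq_true, Bool.and_eq_true] at h
        exact hK _ _ (he u v h.2.2)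
      · simp at h
        omega
      · simp at h
        omega

theorem coded_one {U : Type} [Fintype U] {H : SimpleGraph U} {z : U}
    {K : SimpleGraph {u // u ≠ z}} {n M : ℕ} {e : {u // u ≠ z} ≃ Fin n}
    (he : ∀ u v : Fin n, eM M u v = true → K.Adj (e.symm u) (e.symm v)) {i j k : Fin n}
    (hK : ∀ a b, K.Adj a b → s(a, b) ≠ s(e.symm i, e.symm j) → H.Adj a b)
    (hi : H.Adj z (e.symm i)) (hj : H.Adj z (e.symm j)) (hk : H.Adj z (e.symm k)) :
    Coded H (n + 1) (a1 M n i j k) := by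
  obtain ⟨e', h1, h2⟩ := exists_num e
  refine ⟨e', fun u v huv => ?_⟩
  have hil := i.2
  have hjl := j.2
  have hkl := k.2
  rw [a1, Bool.or_eq_true, Bool.or_eq_true] at huv
  induction u using Fin.lastCases with
  | last =>
    induction v using Fin.lastCases with
    | last =>
      exfalso
      rcases huv with h | h | h
      · simp at h
      · simp at h
        omega
      · simp at h
        omega
    | cast v =>
      rw [h1, h2]
      rcases huv with h | h | h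
      · simp at h
      · simp at h
        rcases h with h | h | h
        · have : v = i := Fin.ext h
          rw [this]
          exact hi
        · have : v = j := Fin.ext h
          rw [this]
          exact hj
        · have : v = k := Fin.ext h
          rw [this]
          exact hk
      · simp at h
        omega
  | cast u =>
    induction v using Fin.lastCases with
    | last =>
      rw [h1, h2]
      rcases huv with h | h | h
      · simp at h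
      · simp at h
        omega
      · simp at h
        rcases h with h | h | h
        · have : u = i := Fin.ext h
          rw [this]
          exact hi.symm
        · have : u = j := Fin.ext h
          rw [this]
          exact hj.symm
        · have : u = k := Fin.ext h
          rw [this]
          exact hk.symm
    | cast v =>
      rw [h1, h1]
      rcases huv with h | h | h
      · rw [Bool.and_eq_true, Bool.and_eq_true, Bool.and_eq_true, Bool.and_eq_true] at h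
        obtain ⟨-, -, h3, h4, h5⟩ := h
        refine hK _ _ (he u v h3) ?_
        intro h6
        rcases Sym2.eq_iff.1 h6 with ⟨h7, h8⟩ | ⟨h7, h8⟩
        · have e1 : u = i := e.symm.injective h7
          have e2 : v = j := e.symm.injective h8
          rw [e1, e2] at h4
          simp at h4
        · have e1 : u = j := e.symm.injective h7
          have e2 : v = i := e.symm.injective h8
          rw [e1, e2] at h5
          simp at h5
      · simp at h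
        omega
      · simp at h
        omega

/-- an entry for a vertex of degree two -/
structure Z0 where
  M : ℕ
  i : ℕ
  j : ℕ
  M' : ℕ
  S : ℕ

/-- an entry for a vertex of degree three -/
structure Z1 where
  M : ℕ
  i : ℕ
  j : ℕ
  k : ℕ
  M' : ℕ
  S : ℕ

/-- the check of the table -/
def chkL (n : ℕ) (Ls Ls' : List ℕ) (T0 : List Z0) (T1 : List Z1) : Bool :=
  Ls.all fun M => ball (fun i => ball (fun j => !(Nat.blt i j) ||
    ((T0.any fun t => Nat.beq t.M M && (Nat.beq t.i i && (Nat.beq t.j j &&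
      (Ls'.contains t.M' && okE (n + 1) (a0 M n i j) t.M' t.S)))) &&
    ball (fun k => (Nat.beq k i || Nat.beq k j) || (T1.any fun t => Nat.beq t.M M &&
      (Nat.beq t.i i && (Nat.beq t.j j && (Nat.beq t.k k &&
      (Ls'.contains t.M' && okE (n + 1) (a1 M n i j k) t.M' t.S)))))) n)) n) n

/-- each graph with `n` vertices that is rigid in the plane contains a graph of the list -/
def Small (n : ℕ) (Ls : List ℕ) : Prop :=
  ∀ (U : Type) [Fintype U] (H : SimpleGraph U), GenRigid 2 H → Fintype.card U = n →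
    ∃ M ∈ Ls, Coded H n (eM M)

theorem chk_zero {n : ℕ} {Ls Ls' : List ℕ} {T0 : List Z0} {T1 : List Z1}
    (h : chkL n Ls Ls' T0 T1 = true) {M : ℕ} (hM : M ∈ Ls) {i j : ℕ} (hi : i < n) (hj : j < n)
    (hij : i < j) : ∃ M' ∈ Ls', ∃ S, okE (n + 1) (a0 M n i j) M' S = true := by
  rw [chkL, List.all_eq_true] at h
  have h1 := ball_spec (ball_spec (h M hM) i hi) j hj
  rw [Bool.or_eq_true, Bool.and_eq_true] at h1
  rcases h1 with h1 | ⟨h1, -⟩
  · exfalso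
    rw [Bool.not_eq_true', ← Bool.not_eq_true, Nat.blt_eq] at h1
    exact h1 hij
  · rw [List.any_eq_true] at h1
    obtain ⟨t, -, h2⟩ := h1
    rw [Bool.and_eq_true, Bool.and_eq_true, Bool.and_eq_true, Bool.and_eq_true] at h2
    exact ⟨t.M', List.contains_iff_mem.1 h2.2.2.2.1, t.S, h2.2.2.2.2⟩

theorem chk_one {n : ℕ} {Ls Ls' : List ℕ} {T0 : List Z0} {T1 : List Z1}
    (h : chkL n Ls Ls' T0 T1 = true) {M : ℕ} (hM : M ∈ Ls) {i j k : ℕ} (hi : i < n) (hj : j < n)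
    (hk : k < n) (hij : i < j) (hik : k ≠ i) (hjk : k ≠ j) :
    ∃ M' ∈ Ls', ∃ S, okE (n + 1) (a1 M n i j k) M' S = true := by
  rw [chkL, List.all_eq_true] at h
  have h1 := ball_spec (ball_spec (h M hM) i hi) j hj
  rw [Bool.or_eq_true, Bool.and_eq_true] at h1
  rcases h1 with h1 | ⟨-, h1⟩
  · exfalso
    rw [Bool.not_eq_true', ← Bool.not_eq_true, Nat.blt_eq] at h1
    exact h1 hij
  · have h1 := ball_spec h1 k hk
    rw [Bool.or_eq_true, Bool.or_eq_true] at h1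
    rcases h1 with (h1 | h1) | h1
    · exact absurd (Nat.eq_of_beq_eq_true h1) hik
    · exact absurd (Nat.eq_of_beq_eq_true h1) hjk
    · rw [List.any_eq_true] at h1
      obtain ⟨t, -, h2⟩ := h1
      rw [Bool.and_eq_true, Bool.and_eq_true, Bool.and_eq_true, Bool.and_eq_true,
        Bool.and_eq_true] at h2
      exact ⟨t.M', List.contains_iff_mem.1 h2.2.2.2.2.1, t.S, h2.2.2.2.2.2⟩

theorem small_step {n : ℕ} (hn : 2 ≤ n) {Ls Ls' : List ℕ} {T0 : List Z0} {T1 : List Z1}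
    (h : chkL n Ls Ls' T0 T1 = true) (ih : Small n Ls) : Small (n + 1) Ls' := by
  intro U _ H hH hU
  classical
  obtain ⟨z, K, hK, hd⟩ := step H hH (by omega)
  obtain ⟨M, hM, e, he⟩ := ih {u // u ≠ z} K hK (by
    rw [Fintype.card_subtype_compl, Fintype.card_subtype_eq, hU]
    rfl)
  rcases hd with ⟨x, y, hxy, hx, hy, hK'⟩ | ⟨x, y, w, hxy, hxw, hyw, hx, hy, hw, hK'⟩
  · have h0 : ∀ i j : Fin n, i < j → H.Adj z (e.symm i) → H.Adj z (e.symm j) →
        ∃ M ∈ Ls', Coded H (n + 1) (eM M) := by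
      intro i j hij hi hj
      obtain ⟨M', hM', S, hS⟩ := chk_zero h hM i.2 j.2 hij
      exact ⟨M', hM', okE_spec (coded_zero he hK' hi hj) hS⟩
    have hne : e x ≠ e y := fun h => hxy (e.injective h)
    rcases lt_or_gt_of_ne hne with h1 | h1
    · exact h0 _ _ h1 (by rw [e.symm_apply_apply]; exact hx) (by rw [e.symm_apply_apply]; exact hy)
    · exact h0 _ _ h1 (by rw [e.symm_apply_apply]; exact hy) (by rw [e.symm_apply_apply]; exact hx)
  · have h0 : ∀ i j k : Fin n, i < j → k ≠ i → k ≠ j → H.Adj z (e.symm i) → H.Adj z (e.symm j) →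
        H.Adj z (e.symm k) → (∀ a b, K.Adj a b → s(a, b) ≠ s(e.symm i, e.symm j) → H.Adj a b) →
        ∃ M ∈ Ls', Coded H (n + 1) (eM M) := by
      intro i j k hij hik hjk hi hj hk hKK
      obtain ⟨M', hM', S, hS⟩ := chk_one h hM i.2 j.2 k.2 hij (fun h => hik (Fin.ext h))
        (fun h => hjk (Fin.ext h))
      exact ⟨M', hM', okE_spec (coded_one he hKK hi hj hk) hS⟩
    have hne : e x ≠ e y := fun h => hxy (e.injective h)
    have hwx : e w ≠ e x := fun h => hxw (e.injective h).symm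
    have hwy : e w ≠ e y := fun h => hyw (e.injective h).symm
    rcases lt_or_gt_of_ne hne with h1 | h1
    · refine h0 _ _ _ h1 hwx hwy (by rw [e.symm_apply_apply]; exact hx)
        (by rw [e.symm_apply_apply]; exact hy) (by rw [e.symm_apply_apply]; exact hw) ?_
      rw [e.symm_apply_apply, e.symm_apply_apply]
      exact hK'
    · refine h0 _ _ _ h1 hwy hwx (by rw [e.symm_apply_apply]; exact hy)
        (by rw [e.symm_apply_apply]; exact hx) (by rw [e.symm_apply_apply]; exact hw) ?_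
      rw [e.symm_apply_apply, e.symm_apply_apply]
      intro a b hab hs
      exact hK' a b hab fun h => hs (h.trans Sym2.eq_swap)

/-- the minimally rigid plane graphs with 2 vertices -/
def L2 : List ℕ :=
  [0x102]

/-- the minimally rigid plane graphs with 3 vertices -/
def L3 : List ℕ :=
  [0x30506]

/-- the minimally rigid plane graphs with 4 vertices -/
def L4 : List ℕ :=
  [0x3030d0e]

/-- the minimally rigid plane graphs with 5 vertices -/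
def L5 : List ℕ :=
  [0x303031d1e, 0x503130d1e, 0xc13130d0e]

/-- the minimally rigid plane graphs with 6 vertices -/
def L6 : List ℕ :=
  [0x30303033d3e, 0x50303231d3e, 0x90523130d3e, 0xc0323231d1e, 0x60503332d1e, 0xa0523132d1e,
   0x122503132d1e, 0x182523130d1e, 0x1c2123230d1e, 0xe093123251e, 0x1e212123251e, 0x1c2a3123150e,
   0xe0e3131310e]

/-- table -/
def t0_2 : List Z0 :=
  [⟨0x102, 0, 1, 0x30506, 0x88⟩]

/-- table -/
def t1_2 : List Z1 := []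

/-- table -/
def t0_3 : List Z0 :=
  [⟨0x30506, 0, 1, 0x3030d0e, 0x688⟩, ⟨0x30506, 0, 2, 0x3030d0e, 0x650⟩,
   ⟨0x30506, 1, 2, 0x3030d0e, 0x611⟩]

/-- table -/
def t1_3 : List Z1 :=
  [⟨0x30506, 0, 1, 2, 0x3030d0e, 0x21a⟩, ⟨0x30506, 0, 2, 1, 0x3030d0e, 0x419⟩,
   ⟨0x30506, 1, 2, 0, 0x3030d0e, 0x458⟩]

/-- table -/
def t0_4 : List Z0 :=
  [⟨0x3030d0e, 0, 1, 0x303031d1e, 0x4688⟩, ⟨0x3030d0e, 0, 2, 0x503130d1e, 0x4688⟩,
   ⟨0x3030d0e, 0, 3, 0x503130d1e, 0x44c8⟩, ⟨0x3030d0e, 1, 2, 0x503130d1e, 0x4681⟩,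
   ⟨0x3030d0e, 1, 3, 0x503130d1e, 0x44c1⟩, ⟨0x3030d0e, 2, 3, 0xc13130d0e, 0x4688⟩]

/-- table -/
def t1_4 : List Z1 :=
  [⟨0x3030d0e, 0, 1, 2, 0xc13130d0e, 0x3222⟩, ⟨0x3030d0e, 0, 1, 3, 0xc13130d0e, 0x2223⟩,
   ⟨0x3030d0e, 0, 2, 1, 0x503130d1e, 0x2701⟩, ⟨0x3030d0e, 0, 2, 3, 0xc13130d0e, 0x2858⟩,
   ⟨0x3030d0e, 0, 3, 1, 0x503130d1e, 0x3501⟩, ⟨0x3030d0e, 0, 3, 2, 0xc13130d0e, 0x3850⟩,
   ⟨0x3030d0e, 1, 2, 0, 0x503130d1e, 0x2708⟩, ⟨0x3030d0e, 1, 2, 3, 0xc13130d0e, 0x2819⟩,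
   ⟨0x3030d0e, 1, 3, 0, 0x503130d1e, 0x3508⟩, ⟨0x3030d0e, 1, 3, 2, 0xc13130d0e, 0x3811⟩,
   ⟨0x3030d0e, 2, 3, 0, 0x503130d1e, 0x4688⟩, ⟨0x3030d0e, 2, 3, 1, 0x503130d1e, 0x4681⟩]

/-- table -/
def t0_5 : List Z0 :=
  [⟨0x303031d1e, 0, 1, 0x30303033d3e, 0x2c688⟩, ⟨0x303031d1e, 0, 2, 0x50303231d3e, 0x2c688⟩,
   ⟨0x303031d1e, 0, 3, 0x50303231d3e, 0x2c4c8⟩, ⟨0x303031d1e, 0, 4, 0x50303231d3e, 0x2b508⟩,
   ⟨0x303031d1e, 1, 2, 0x50303231d3e, 0x2c681⟩, ⟨0x303031d1e, 1, 3, 0x50303231d3e, 0x2c4c1⟩,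
   ⟨0x303031d1e, 1, 4, 0x50303231d3e, 0x2b501⟩, ⟨0x303031d1e, 2, 3, 0xc0323231d1e, 0x2c688⟩,
   ⟨0x303031d1e, 2, 4, 0xc0323231d1e, 0x2b888⟩, ⟨0x303031d1e, 3, 4, 0xc0323231d1e, 0x2a8c8⟩,
   ⟨0x503130d1e, 0, 1, 0x50303231d3e, 0x25688⟩, ⟨0x503130d1e, 0, 2, 0x50303231d3e, 0x1d850⟩,
   ⟨0x503130d1e, 0, 3, 0x90523130d3e, 0x2c688⟩, ⟨0x503130d1e, 0, 4, 0x90523130d3e, 0x2b850⟩,
   ⟨0x503130d1e, 1, 2, 0x60503332d1e, 0x2c688⟩, ⟨0x503130d1e, 1, 3, 0xa0523132d1e, 0x2c688⟩,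
   ⟨0x503130d1e, 1, 4, 0x122503132d1e, 0x2c688⟩, ⟨0x503130d1e, 2, 3, 0x122503132d1e, 0x2b850⟩,
   ⟨0x503130d1e, 2, 4, 0xa0523132d1e, 0x2b850⟩, ⟨0x503130d1e, 3, 4, 0x182523130d1e, 0x2c688⟩,
   ⟨0xc13130d0e, 0, 1, 0xc0323231d1e, 0x25688⟩, ⟨0xc13130d0e, 0, 2, 0x122503132d1e, 0x23a50⟩,
   ⟨0xc13130d0e, 0, 3, 0x122503132d1e, 0x22a58⟩, ⟨0xc13130d0e, 0, 4, 0x1c2123230d1e, 0x25688⟩,
   ⟨0xc13130d0e, 1, 2, 0x122503132d1e, 0x23a11⟩, ⟨0xc13130d0e, 1, 3, 0x122503132d1e, 0x22a19⟩,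
   ⟨0xc13130d0e, 1, 4, 0x1c2123230d1e, 0x25681⟩, ⟨0xc13130d0e, 2, 3, 0x1e212123251e, 0x1d842⟩,
   ⟨0xc13130d0e, 2, 4, 0xe093123251e, 0x1d842⟩, ⟨0xc13130d0e, 3, 4, 0xe093123251e, 0x15843⟩]

/-- table -/
def t1_5 : List Z1 :=
  [⟨0x303031d1e, 0, 1, 2, 0x1e212123251e, 0xc750⟩,
   ⟨0x303031d1e, 0, 1, 3, 0x1e212123251e, 0xc558⟩,
   ⟨0x303031d1e, 0, 1, 4, 0x1e212123251e, 0xb560⟩,
   ⟨0x303031d1e, 0, 2, 1, 0x50303231d3e, 0x14741⟩,
   ⟨0x303031d1e, 0, 2, 3, 0x122503132d1e, 0x158c8⟩,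
   ⟨0x303031d1e, 0, 2, 4, 0x122503132d1e, 0x15708⟩,
   ⟨0x303031d1e, 0, 3, 1, 0x50303231d3e, 0x1c541⟩,
   ⟨0x303031d1e, 0, 3, 2, 0x122503132d1e, 0x1d888⟩,
   ⟨0x303031d1e, 0, 3, 4, 0x122503132d1e, 0x1d508⟩,
   ⟨0x303031d1e, 0, 4, 1, 0x50303231d3e, 0x23541⟩,
   ⟨0x303031d1e, 0, 4, 2, 0x122503132d1e, 0x25688⟩,
   ⟨0x303031d1e, 0, 4, 3, 0x122503132d1e, 0x254c8⟩,
   ⟨0x303031d1e, 1, 2, 0, 0x50303231d3e, 0x14748⟩,
   ⟨0x303031d1e, 1, 2, 3, 0x122503132d1e, 0x158c1⟩,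
   ⟨0x303031d1e, 1, 2, 4, 0x122503132d1e, 0x15701⟩,
   ⟨0x303031d1e, 1, 3, 0, 0x50303231d3e, 0x1c548⟩,
   ⟨0x303031d1e, 1, 3, 2, 0x122503132d1e, 0x1d881⟩,
   ⟨0x303031d1e, 1, 3, 4, 0x122503132d1e, 0x1d501⟩,
   ⟨0x303031d1e, 1, 4, 0, 0x50303231d3e, 0x23548⟩,
   ⟨0x303031d1e, 1, 4, 2, 0x122503132d1e, 0x25681⟩,
   ⟨0x303031d1e, 1, 4, 3, 0x122503132d1e, 0x254c1⟩,
   ⟨0x303031d1e, 2, 3, 0, 0x50303231d3e, 0x2c688⟩,
   ⟨0x303031d1e, 2, 3, 1, 0x50303231d3e, 0x2c681⟩,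
   ⟨0x303031d1e, 2, 3, 4, 0xc0323231d1e, 0x2c688⟩,
   ⟨0x303031d1e, 2, 4, 0, 0x50303231d3e, 0x2c688⟩,
   ⟨0x303031d1e, 2, 4, 1, 0x50303231d3e, 0x2c681⟩,
   ⟨0x303031d1e, 2, 4, 3, 0xc0323231d1e, 0x2c688⟩,
   ⟨0x303031d1e, 3, 4, 0, 0x50303231d3e, 0x2c4c8⟩,
   ⟨0x303031d1e, 3, 4, 1, 0x50303231d3e, 0x2c4c1⟩,
   ⟨0x303031d1e, 3, 4, 2, 0xc0323231d1e, 0x2c688⟩,
   ⟨0x503130d1e, 0, 1, 2, 0x122503132d1e, 0x19942⟩,
   ⟨0x503130d1e, 0, 1, 3, 0xe093123251e, 0xc558⟩, ⟨0x503130d1e, 0, 1, 4, 0x1c2123230d1e, 0xbaa0⟩,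
   ⟨0x503130d1e, 0, 2, 1, 0x122503132d1e, 0x22741⟩,
   ⟨0x503130d1e, 0, 2, 3, 0x1c2123230d1e, 0x14a58⟩,
   ⟨0x503130d1e, 0, 2, 4, 0xe093123251e, 0x13360⟩,
   ⟨0x503130d1e, 0, 3, 1, 0xa0523132d1e, 0x1ca88⟩,
   ⟨0x503130d1e, 0, 3, 2, 0xc0323231d1e, 0x1ca50⟩,
   ⟨0x503130d1e, 0, 3, 4, 0x182523130d1e, 0x1d310⟩,
   ⟨0x503130d1e, 0, 4, 1, 0xc0323231d1e, 0x23a88⟩,
   ⟨0x503130d1e, 0, 4, 2, 0xa0523132d1e, 0x23a50⟩,
   ⟨0x503130d1e, 0, 4, 3, 0x182523130d1e, 0x254c8⟩,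
   ⟨0x503130d1e, 1, 2, 0, 0x90523130d3e, 0x23468⟩,
   ⟨0x503130d1e, 1, 2, 3, 0xe093123251e, 0x2c4c8⟩,
   ⟨0x503130d1e, 1, 2, 4, 0xe093123251e, 0x2b310⟩,
   ⟨0x503130d1e, 1, 3, 0, 0x90523130d3e, 0x1ca88⟩,
   ⟨0x503130d1e, 1, 3, 2, 0x122503132d1e, 0x1d842⟩,
   ⟨0x503130d1e, 1, 3, 4, 0x1c2123230d1e, 0x2b850⟩,
   ⟨0x503130d1e, 1, 4, 0, 0x50303231d3e, 0x25688⟩,
   ⟨0x503130d1e, 1, 4, 2, 0x60503332d1e, 0x2c688⟩,
   ⟨0x503130d1e, 1, 4, 3, 0xa0523132d1e, 0x2c688⟩,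
   ⟨0x503130d1e, 2, 3, 0, 0x50303231d3e, 0x1d850⟩,
   ⟨0x503130d1e, 2, 3, 1, 0x60503332d1e, 0x2c688⟩,
   ⟨0x503130d1e, 2, 3, 4, 0xa0523132d1e, 0x2b850⟩,
   ⟨0x503130d1e, 2, 4, 0, 0x90523130d3e, 0x23a50⟩,
   ⟨0x503130d1e, 2, 4, 1, 0x122503132d1e, 0x25681⟩,
   ⟨0x503130d1e, 2, 4, 3, 0x1c2123230d1e, 0x2c688⟩,
   ⟨0x503130d1e, 3, 4, 0, 0x90523130d3e, 0x2c688⟩,
   ⟨0x503130d1e, 3, 4, 1, 0xa0523132d1e, 0x2c688⟩,
   ⟨0x503130d1e, 3, 4, 2, 0xa0523132d1e, 0x2b850⟩,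
   ⟨0xc13130d0e, 0, 1, 2, 0x1c2123230d1e, 0x1c22a⟩,
   ⟨0xc13130d0e, 0, 1, 3, 0x1c2123230d1e, 0x1422b⟩,
   ⟨0xc13130d0e, 0, 1, 4, 0xe0e3131310e, 0x21ad0⟩,
   ⟨0xc13130d0e, 0, 2, 1, 0x182523130d1e, 0x22741⟩,
   ⟨0xc13130d0e, 0, 2, 3, 0x1c2123230d1e, 0x14a43⟩,
   ⟨0xc13130d0e, 0, 2, 4, 0x1c2a3123150e, 0x22ac8⟩,
   ⟨0xc13130d0e, 0, 3, 1, 0x182523130d1e, 0x23541⟩,
   ⟨0xc13130d0e, 0, 3, 2, 0x1c2123230d1e, 0x1ca42⟩,
   ⟨0xc13130d0e, 0, 3, 4, 0x1c2a3123150e, 0x23a88⟩,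
   ⟨0xc13130d0e, 0, 4, 1, 0xc0323231d1e, 0x25688⟩,
   ⟨0xc13130d0e, 0, 4, 2, 0xa0523132d1e, 0x23a50⟩,
   ⟨0xc13130d0e, 0, 4, 3, 0xa0523132d1e, 0x22a58⟩,
   ⟨0xc13130d0e, 1, 2, 0, 0x182523130d1e, 0x22748⟩,
   ⟨0xc13130d0e, 1, 2, 3, 0x1c2123230d1e, 0x14a0b⟩,
   ⟨0xc13130d0e, 1, 2, 4, 0x1c2a3123150e, 0x254c8⟩,
   ⟨0xc13130d0e, 1, 3, 0, 0x182523130d1e, 0x23548⟩,
   ⟨0xc13130d0e, 1, 3, 2, 0x1c2123230d1e, 0x1ca0a⟩,
   ⟨0xc13130d0e, 1, 3, 4, 0x1c2a3123150e, 0x25688⟩,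
   ⟨0xc13130d0e, 1, 4, 0, 0xc0323231d1e, 0x25688⟩,
   ⟨0xc13130d0e, 1, 4, 2, 0xa0523132d1e, 0x23a11⟩,
   ⟨0xc13130d0e, 1, 4, 3, 0xa0523132d1e, 0x22a19⟩,
   ⟨0xc13130d0e, 2, 3, 0, 0x122503132d1e, 0x23a50⟩,
   ⟨0xc13130d0e, 2, 3, 1, 0x122503132d1e, 0x23a11⟩,
   ⟨0xc13130d0e, 2, 3, 4, 0xe093123251e, 0x1d842⟩,
   ⟨0xc13130d0e, 2, 4, 0, 0x182523130d1e, 0x25688⟩,
   ⟨0xc13130d0e, 2, 4, 1, 0x182523130d1e, 0x25681⟩,
   ⟨0xc13130d0e, 2, 4, 3, 0xe093123251e, 0x14a43⟩,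
   ⟨0xc13130d0e, 3, 4, 0, 0x182523130d1e, 0x254c8⟩,
   ⟨0xc13130d0e, 3, 4, 1, 0x182523130d1e, 0x254c1⟩,
   ⟨0xc13130d0e, 3, 4, 2, 0xe093123251e, 0x1ca42⟩]

/-- two vertices -/
theorem small_two : Small 2 L2 := by
  intro U _ H hH hU
  classical
  have e : U ≃ Fin 2 := Fintype.equivFinOfCardEq hU
  have hadj : H.Adj (e.symm 0) (e.symm 1) := by
    by_contra hno
    have hbot : H = ⊥ := by
      ext a b
      simp only [bot_adj, iff_false]
      intro hab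
      have h1 : ∀ i j : Fin 2, i ≠ j → ¬ H.Adj (e.symm i) (e.symm j) := by
        intro i j hij h2
        fin_cases i <;> fin_cases j
        · exact hij rfl
        · exact hno h2
        · exact hno h2.symm
        · exact hij rfl
      refine h1 (e a) (e b) (fun h => hab.ne (e.injective h)) ?_
      rw [e.symm_apply_apply, e.symm_apply_apply]
      exact hab
    obtain ⟨p, hp⟩ := Pool.Agent.H789R5.exists_mg U 2
    have h1 := (Pool.Agent.H789R5.genRigid_iff hp (by omega) H).1 hH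
    have h2 := Pool.Agent.N423.DE.mo_lower H p
    rw [hbot] at h1 h2
    have h3 : (⊥ : SimpleGraph U).edgeSet.ncard = 0 := by simp
    rw [h3, hU] at h2
    omega
  refine ⟨_, List.mem_cons_self, e, ?_⟩
  intro u v huv
  fin_cases u <;> fin_cases v
  · exact absurd huv (by decide)
  · exact hadj
  · exact hadj.symm
  · exact absurd huv (by decide)

theorem small_three : Small 3 L3 :=
  small_step (T0 := t0_2) (T1 := t1_2) le_rfl (by decide +kernel) small_two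

theorem small_four : Small 4 L4 :=
  small_step (T0 := t0_3) (T1 := t1_3) (by norm_num) (by decide +kernel) small_three

theorem small_five : Small 5 L5 :=
  small_step (T0 := t0_4) (T1 := t1_4) (by norm_num) (by decide +kernel) small_four

theorem small_six : Small 6 L6 :=
  small_step (T0 := t0_5) (T1 := t1_5) (by norm_num) (by decide +kernel) small_five

end Pool.Agent.J4H92.PL
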