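import Pool.Agent.J4H92.PL.Cert
import Pool.Agent.J4H92.PL.Small

/-!
# Tables of certificates for products of two small graphs
-/

set_option autoImplicit false

namespace Pool.Agent.J4H92.PL

open SimpleGraph Pool.Agent.J4H92.CP Pool.Agent.H283R2.DR

/-- all certificates are correct -/
def allC (n1 n2 k : ℕ) (C : List (ℕ × ℕ × Fc)) : Bool :=
  C.all fun t => t.2.2.check (aP n2 (eM t.1) (eM t.2.1)) (n1 * n2) && Nat.beq t.2.2.U.length k

/-- the table covers all pairs -/
def covC (L L' : List ℕ) (C : List (ℕ × ℕ × Fc)) : Bool :=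
  L.all fun M => L'.all fun M' => C.any fun t => Nat.beq t.1 M && Nat.beq t.2.1 M'

theorem base_of {n1 n2 k : ℕ} {L L' : List ℕ} {C : List (ℕ × ℕ × Fc)}
    (h1 : allC n1 n2 k C = true) (h2 : covC L L' C = true) {U W : Type} [Fintype U] [Fintype W]
    {H : SimpleGraph U} {G : SimpleGraph W} {M M' : ℕ} (hM : M ∈ L) (hM' : M' ∈ L')
    (hH : Coded H n1 (eM M)) (hG : Coded G n2 (eM M')) : Mu 0 k (H □ G) := by
  rw [covC, List.all_eq_true] at h2
  have h3 := h2 M hM
  rw [List.all_eq_true] at h3
  have h4 := h3 M' hM'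
  rw [List.any_eq_true] at h4
  obtain ⟨t, ht, h5⟩ := h4
  rw [Bool.and_eq_true] at h5
  have e1 := Nat.eq_of_beq_eq_true h5.1
  have e2 := Nat.eq_of_beq_eq_true h5.2
  rw [allC, List.all_eq_true] at h1
  have h6 := h1 t ht
  rw [Bool.and_eq_true, e1, e2] at h6
  have e3 := Nat.eq_of_beq_eq_true h6.2
  have h7 := coded3 (hH.prod hG) t.2.2 h6.1
  rwa [e3] at h7

/-- the minimally rigid plane graphs with five vertices and one more edge -/
def L5e : List ℕ :=
  [0x3070b1d1e, 0x703131d1e, 0xb13031d1e, 0x5071b0d1e, 0xd13130d1e, 0xe13131d0e, 0xc171b0d0e]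

/-- the complete graph with four vertices -/
def L4e : List ℕ := [0x70b0d0e]

/-- number of edges of a code -/
def nE (n M : ℕ) : ℕ :=
  ((Finset.univ : Finset (Fin n × Fin n)).filter fun x => x.1 < x.2 ∧ eM M x.1 x.2 = true).card

/-- the codes with one more edge are in the second list -/
def extC (n : ℕ) (L L' : List ℕ) : Bool :=
  L.all fun M => ball (fun i => ball (fun j => (!(Nat.blt i j) || eM M i j) ||
    L'.contains (M ||| (2 ^ (8 * i + j) ||| 2 ^ (8 * j + i)))) n) n

/-- the codes have `m` edges -/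
def numC (n m : ℕ) (L : List ℕ) : Bool := L.all fun M => Nat.beq (nE n M) m

theorem coded_extra {n m : ℕ} (hn : n ≤ 8) {L L' : List ℕ} (h1 : extC n L L' = true)
    (h2 : numC n m L = true) {U : Type} [Fintype U] {H : SimpleGraph U} {M : ℕ} (hM : M ∈ L)
    (hH : Coded H n (eM M)) (hm : m < H.edgeSet.ncard) : ∃ M' ∈ L', Coded H n (eM M') := by
  classical
  obtain ⟨e, he⟩ := hH
  rw [numC, List.all_eq_true] at h2
  have h3 := Nat.eq_of_beq_eq_true (h2 M hM)
  obtain ⟨i, j, hij, hadj, hno⟩ : ∃ i j : Fin n, i < j ∧ H.Adj (e.symm i) (e.symm j) ∧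
      ¬ eM M i j = true := by
    by_contra hcon
    push Not at hcon
    have h4 : H.edgeSet ⊆ (((Finset.univ : Finset (Fin n × Fin n)).filter fun x => x.1 < x.2 ∧
        eM M x.1 x.2 = true).image fun x => s(e.symm x.1, e.symm x.2) : Finset (Sym2 U)) := by
      intro a ha
      induction a using Sym2.ind with
      | _ x y =>
        rw [mem_edgeSet] at ha
        rw [Finset.mem_coe, Finset.mem_image]
        have hne : e x ≠ e y := fun h => ha.ne (e.injective h)
        rcases lt_or_gt_of_ne hne with h | h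
        · refine ⟨(e x, e y), Finset.mem_filter.2 ⟨Finset.mem_univ _, h, hcon _ _ h ?_⟩, ?_⟩
          · rw [e.symm_apply_apply, e.symm_apply_apply]
            exact ha
          · rw [e.symm_apply_apply, e.symm_apply_apply]
        · refine ⟨(e y, e x), Finset.mem_filter.2 ⟨Finset.mem_univ _, h, hcon _ _ h ?_⟩, ?_⟩
          · rw [e.symm_apply_apply, e.symm_apply_apply]
            exact ha.symm
          · rw [e.symm_apply_apply, e.symm_apply_apply]
            exact Sym2.eq_swap
    have h5 := Set.ncard_le_ncard h4 (Finset.finite_toSet _)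
    rw [Set.ncard_coe_finset] at h5
    have h6 := h5.trans Finset.card_image_le
    have h7 : H.edgeSet.ncard ≤ nE n M := h6
    omega
  rw [extC, List.all_eq_true] at h1
  have h4 := ball_spec (ball_spec (h1 M hM) i i.2) j j.2
  rw [Bool.or_eq_true, Bool.or_eq_true] at h4
  rcases h4 with (h4 | h4) | h4
  · exfalso
    rw [Bool.not_eq_true', ← Bool.not_eq_true, Nat.blt_eq] at h4
    exact h4 hij
  · exact absurd h4 hno
  · refine ⟨_, List.contains_iff_mem.1 h4, e, ?_⟩
    intro u v huv
    rw [eM, Nat.testBit_or, Nat.testBit_or, Nat.testBit_two_pow, Nat.testBit_two_pow,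
      Bool.or_eq_true, Bool.or_eq_true] at huv
    have hu := u.2
    have hv := v.2
    have hi := i.2
    have hj := j.2
    rcases huv with h | h | h
    · exact he u v h
    · rw [decide_eq_true_eq] at h
      have e1 : u = i := Fin.ext (by omega)
      have e2 : v = j := Fin.ext (by omega)
      rw [e1, e2]
      exact hadj
    · rw [decide_eq_true_eq] at h
      have e1 : u = j := Fin.ext (by omega)
      have e2 : v = i := Fin.ext (by omega)
      rw [e1, e2]
      exact hadj.symm

theorem ext5 : extC 5 L5 L5e = true := by decide +kernel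

theorem num5 : numC 5 7 L5 = true := by decide +kernel

theorem ext4 : extC 4 L4 L4e = true := by decide +kernel

theorem num4 : numC 4 5 L4 = true := by decide +kernel

end Pool.Agent.J4H92.PL
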