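import Pool.Agent.J4H92.PL.Ext
import Pool.Agent.J4H92.PL.Plane

/-!
# From small to large graphs that are rigid in the plane
-/

set_option autoImplicit false

namespace Pool.Agent.J4H92.PL

open SimpleGraph Pool.Agent.J4H92.CP Pool.Agent.H283R2.DR

/-- one step up -/
theorem up_step {U W : Type} [Fintype U] [Finite W] {H : SimpleGraph U} {z : U}
    {K : SimpleGraph {u // u ≠ z}} {Y : SimpleGraph W} {j k : ℕ} (hd : Down H z K)
    (hY : Mu (j + 2) 0 Y) (h : Mu j k (K □ Y)) : Mu j k (H □ Y) := by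
  classical
  let e : Option {u // u ≠ z} ≃ U := Equiv.optionSubtypeNe z
  have e0 : e none = z := rfl
  have e1 : ∀ x, e (some x) = x := fun _ => rfl
  have key : Mu j k ((H.comap e) □ Y) := by
    rcases hd with ⟨x, y, hxy, hx, hy, hK⟩ | ⟨x, y, w, hxy, hxw, hyw, hx, hy, hw, hK⟩
    · exact ext_zero (x := x) (y := y) hxy hx hy hK hY h
    · exact ext_one (x := x) (y := y) (z := w) hxy hxw hyw hx hy hw hK hY h
  have φ : SimpleGraph.boxProd (H.comap e) Y ≃g SimpleGraph.boxProd H Y :=
    { toEquiv := Equiv.prodCongr e (Equiv.refl W)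
      map_rel_iff' := by
        intro a b
        show (H.Adj (e a.1) (e b.1) ∧ a.2 = b.2 ∨ Y.Adj a.2 b.2 ∧ e a.1 = e b.1) ↔
          (H.Adj (e a.1) (e b.1) ∧ a.2 = b.2 ∨ Y.Adj a.2 b.2 ∧ a.1 = b.1)
        rw [e.injective.eq_iff] }
  exact key.of_iso φ.symm

/-- **Closure under extensions.** -/
theorem up {W : Type} [Finite W] (Y : SimpleGraph W) {j k m : ℕ} (hm : 2 ≤ m)
    (hY : Mu (j + 2) 0 Y)
    (hb : ∀ (U : Type) [Fintype U] (H : SimpleGraph U), GenRigid 2 H → Fintype.card U = m →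
      Mu j k (H □ Y)) :
    ∀ n, m ≤ n → ∀ (U : Type) [Fintype U] (H : SimpleGraph U), GenRigid 2 H →
      Fintype.card U = n → Mu j k (H □ Y) := by
  intro n hn
  induction n, hn using Nat.le_induction with
  | base => exact hb
  | succ n hn ih =>
    intro U _ H hH hU
    classical
    obtain ⟨z, K, hK, hd⟩ := step H hH (by omega)
    refine up_step hd hY (ih {u // u ≠ z} K hK ?_)
    rw [Fintype.card_subtype_compl, Fintype.card_subtype_eq, hU]
    rfl

end Pool.Agent.J4H92.PL
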